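import Pool.Agent.Rect.Alg.Univ

/-!
# The Gram form on the standard modules

`S.gram K l N v w`: the loop form (loop weight one) for which caps are the transposed cups.  It is
symmetric on `W N l`; the generators and the double row matrices are self-adjoint.  For `l = 2` and
`b = |()()...()|` the form `gram b` is the sum of the coefficients and `gram (Q b)` is, up to the sign
`(-1)^p`, the coefficient of `b`.
-/

set_option autoImplicit false

namespace Rect.Alg
open Module Finset Pool.Agent.Helper9.DR Pool.Agent.Helper30.Rect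

theorem QQ_comm {K : Type*} [Field K] {V : Type*} [AddCommGroup V] [Module K V] (T : Tower K V)
    (n m : ℕ) (h : n ≤ m) : (1 - T.e (2 * m)) * QQ T n = QQ T n * (1 - T.e (2 * m)) := by
  induction n with
  | zero => simp [QQ]
  | succ n ih =>
    have h1 : T.e (2 * m) * T.e (2 * n) = T.e (2 * n) * T.e (2 * m) := T.ecomm (by omega)
    have h2 : (1 - T.e (2 * m)) * (1 - T.e (2 * n)) = (1 - T.e (2 * n)) * (1 - T.e (2 * m)) := by
      rw [mul_sub, mul_sub, sub_mul, sub_mul, h1]
      noncomm_ring
    rw [QQ_succ, ← mul_assoc, ih (by omega), mul_assoc, h2, mul_assoc]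

namespace PatSys

variable {P : Type*} (S : PatSys P) (K : Type*) [Field K]

/-- the Gram form (as a map into the dual) -/
noncomputable def gram (l N : ℕ) : (P →₀ K) →ₗ[K] Module.Dual K (P →₀ K) :=
  S.J (dual (S.tower K)) l (Finsupp.lapply (S.Om l)) N

theorem gram_vac (l i : ℕ) (hi : i + 2 ≤ l) :
    (dual (S.tower K)).k i (Finsupp.lapply (S.Om l) : Module.Dual K (P →₀ K)) = 0 := by
  classical
  refine Finsupp.lhom_ext' fun f => LinearMap.ext_ring ?_
  simp only [LinearMap.comp_apply, Finsupp.lsingle_apply, dual_k, tower_c, Finsupp.lapply_apply,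
    LinearMap.zero_apply]
  rw [Finsupp.single_apply, if_neg fun h => S.Om_ne hi f h.symm]

variable (hU : ∀ i g, S.c i g ≠ S.c (i + 1) g)
include hU

theorem gram_Om (l : ℕ) (w : P →₀ K) :
    S.gram K l l (Finsupp.single (S.Om l) 1) w = w (S.Om l) := by
  rw [gram, S.J_Om _ _ _ hU]; rfl

theorem gram_c {l N i : ℕ} (hi : i ≤ N) {v : P →₀ K} (hv : v ∈ S.W K N l) (w : P →₀ K) :
    S.gram K l (N + 2) ((S.tower K).c i v) w = S.gram K l N v ((S.tower K).k i w) := by
  rw [gram, S.J_c _ _ _ hU hi hv, dual_c]; rfl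

theorem gram_k {l N i : ℕ} (hi : i ≤ N) {v : P →₀ K} (hv : v ∈ S.W K (N + 2) l) (w : P →₀ K) :
    S.gram K l N ((S.tower K).k i v) w = S.gram K l (N + 2) v ((S.tower K).c i w) := by
  rw [gram, S.J_k _ _ _ hU (S.gram_vac K l) hi hv, dual_k]; rfl

theorem gram_e {l N i : ℕ} (hi : i + 2 ≤ N) {v : P →₀ K} (hv : v ∈ S.W K N l) (w : P →₀ K) :
    S.gram K l N ((S.tower K).e i v) w = S.gram K l N v ((S.tower K).e i w) := by
  obtain ⟨M, rfl⟩ : ∃ M, N = M + 2 := ⟨N - 2, by omega⟩
  rw [Tower.e_def, Module.End.mul_apply, Module.End.mul_apply,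
    S.gram_c K hU (by omega) (S.k_mem K (by omega) hv), S.gram_k K hU (by omega) hv]

theorem gram_X {l N i : ℕ} (hi : i + 2 ≤ N) (p : K) {v : P →₀ K} (hv : v ∈ S.W K N l)
    (w : P →₀ K) :
    S.gram K l N ((S.tower K).X i p v) w = S.gram K l N v ((S.tower K).X i p w) := by
  rw [Tower.X_def]
  simp only [LinearMap.add_apply, LinearMap.smul_apply, Module.End.one_apply, map_add, map_smul,
    smul_eq_mul, S.gram_e K hU hi hv]

theorem gram_Ah {l N : ℕ} (p : K) : ∀ (n k : ℕ), k + n + 1 ≤ N → ∀ {v : P →₀ K},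
    v ∈ S.W K N l → ∀ w, S.gram K l N ((S.tower K).Ah n k p v) w =
      S.gram K l N v ((S.tower K).Ah n k p w) := by
  intro n
  induction n with
  | zero => intro k _ v _ w; rfl
  | succ n ih =>
    intro k hk v hv w
    have hX := S.X_mem K (l := l) (N := N) (i := k) (by omega) p hv
    have hA : (S.tower K).Ah n (k + 1) p ((S.tower K).X k p v) ∈ S.W K N l :=
      S.A_mem K _ _ _ (by simp; omega) hX
    rw [Tower.Ah_succ]
    simp only [Module.End.mul_apply]
    rw [S.gram_X K hU (by omega) p hA, ih (k + 1) (by omega) hX, S.gram_X K hU (by omega) p hv]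

theorem gram_Dh {l N : ℕ} (p : K) : ∀ (n k : ℕ), k + n ≤ N → ∀ {v : P →₀ K},
    v ∈ S.W K N l → ∀ w, S.gram K l N ((S.tower K).Dh n k p v) w =
      S.gram K l N v ((S.tower K).Dh n k p w) := by
  intro n
  induction n with
  | zero => intro k _ v _ w; rfl
  | succ n ih =>
    intro k hk v hv w
    rw [Tower.Dh_succ]
    simp only [LinearMap.add_apply, LinearMap.smul_apply, map_add, map_smul, smul_eq_mul,
      S.gram_Ah K hU p n k (by omega) hv, ih (k + 1) (by omega) hv]

/-- symmetry on patterns -/
theorem gram_symm_single {l : ℕ} : ∀ (N : ℕ) {f g : P}, f ∈ S.PN N l → g ∈ S.PN N l →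
    S.gram K l N (Finsupp.single f 1) (Finsupp.single g 1) =
      S.gram K l N (Finsupp.single g 1) (Finsupp.single f 1) := by
  classical
  intro N
  induction N using Nat.strong_induction_on with
  | _ N ih =>
    intro f g hf hg
    rcases S.PNind N l f hf with ⟨rfl, rfl⟩ | ⟨M, f', i, rfl, hi, hf', rfl⟩
    · rw [S.gram_Om K hU]
      rcases S.PNind N N g hg with ⟨_, rfl⟩ | ⟨M, g', i, rfl, hi, hg', rfl⟩
      · rw [S.gram_Om K hU]
      · rw [← S.tower_c K i g' 1, S.gram_c K hU hi (S.single_mem_W K hg' 1), tower_k,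
          S.kOm _ i (by omega), toV_none, smul_zero, map_zero, tower_c, Finsupp.single_apply,
          if_neg fun h => S.Om_ne (by omega) g' h.symm]
    · have hgW := S.single_mem_W K hg 1
      have hkW := S.k_mem K hi hgW
      have hfW := S.single_mem_W K hf' 1
      rw [← S.tower_c K i f' 1, S.gram_c K hU hi hfW, ← S.gram_k K hU hi hgW]
      -- linear extension of the induction hypothesis
      generalize (S.tower K).k i (Finsupp.single g 1) = y at hkW
      rw [W_eq_span] at hkW
      induction hkW using Submodule.span_induction with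
      | mem x hx =>
        obtain ⟨g', hg', rfl⟩ := hx
        exact ih M (by omega) hf' hg'
      | zero => simp
      | add x y _ _ hx hy => rw [map_add, map_add, hx, hy, LinearMap.add_apply]
      | smul a x _ hx => rw [map_smul, map_smul, hx, LinearMap.smul_apply]

/-- **symmetry of the Gram form** -/
theorem gram_symm {l N : ℕ} {v w : P →₀ K} (hv : v ∈ S.W K N l) (hw : w ∈ S.W K N l) :
    S.gram K l N v w = S.gram K l N w v := by
  rw [W_eq_span] at hv hw
  induction hv using Submodule.span_induction with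
  | mem x hx =>
    obtain ⟨f, hf, rfl⟩ := hx
    induction hw using Submodule.span_induction with
    | mem y hy =>
      obtain ⟨g, hg, rfl⟩ := hy
      exact S.gram_symm_single K hU N hf hg
    | zero => simp
    | add x y _ _ hx hy => rw [map_add, map_add, hx, hy, LinearMap.add_apply]
    | smul a x _ hx => rw [map_smul, map_smul, hx, LinearMap.smul_apply]
  | zero => simp
  | add x y _ _ hx hy => rw [map_add, map_add, LinearMap.add_apply, hx, hy]
  | smul a x _ hx => rw [map_smul, map_smul, LinearMap.smul_apply, hx]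

/-! ### The pattern `b = |()()...()|` -/

omit hU in
/-- `b = |()()...()|` with `p` arcs and two defects -/
def bp (p : ℕ) : P := (S.c 1)^[p] (S.Om 2)

omit hU in
theorem bp_succ (p : ℕ) : S.bp (p + 1) = S.c 1 (S.bp p) := by
  rw [bp, Function.iterate_succ_apply', bp]

omit hU in
theorem bp_mem (p : ℕ) : S.bp p ∈ S.PN (2 * p + 2) 2 := by
  induction p with
  | zero => exact S.Om_mem 2
  | succ p ih =>
    rw [bp_succ]
    exact S.PNc (2 * p + 2) 2 1 _ ih (by omega)

omit hU in
/-- an arc may be added anywhere at an odd position -/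
theorem c_bp : ∀ (p j : ℕ), j ≤ p → S.c (2 * j + 1) (S.bp p) = S.bp (p + 1) := by
  intro p
  induction p with
  | zero =>
    intro j hj
    obtain rfl : j = 0 := by omega
    rw [bp_succ]
  | succ p ih =>
    intro j hj
    cases j with
    | zero => rw [S.bp_succ (p + 1)]
    | succ j =>
      rw [S.bp_succ p, show 2 * (j + 1) + 1 = 2 * j + 1 + 2 by ring, S.p_cc (by omega : 1 ≤ 2 * j + 1),
        ih j (by omega), S.bp_succ (p + 1)]

omit hU in
/-- the patterns with two defects and no arc -/
theorem PN_two {f : P} (hf : f ∈ S.PN 2 2) : f = S.Om 2 := by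
  rcases S.PNind 2 2 f hf with ⟨_, h⟩ | ⟨M, g, i, hM, _, hg, _⟩
  · exact h
  · exfalso
    obtain rfl : M = 0 := by omega
    rcases S.PNind 0 2 g hg with ⟨h, _⟩ | ⟨M', _, _, h, _⟩ <;> omega

omit hU in
/-- capping with `b` -/
theorem k_pow : ∀ (p : ℕ) {f : P}, f ∈ S.PN (2 * p + 2) 2 →
    ((S.tower K).k 1 ^ p) (Finsupp.single f 1) = Finsupp.single (S.Om 2) 1 := by
  intro p
  induction p with
  | zero =>
    intro f hf
    rw [S.PN_two hf]
    simp
  | succ p ih =>
    intro f hf
    rcases S.PNind _ _ f hf with ⟨h, _⟩ | ⟨M, g, i, hM, hi, hg, rfl⟩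
    · omega
    · obtain rfl : M = 2 * p + 2 := by omega
      have := LinearMap.congr_fun (k1pow_c (S.tower K) p i (by omega)) (Finsupp.single g 1)
      rw [Module.End.mul_apply, tower_c] at this
      rw [this, ih hg]

omit hU in
theorem k_pow_tot (p : ℕ) {w : P →₀ K} (hw : w ∈ S.W K (2 * p + 2) 2) :
    ((S.tower K).k 1 ^ p) w = Finsupp.single (S.Om 2) (tot K w) := by
  rw [W_eq_span] at hw
  induction hw using Submodule.span_induction with
  | mem x hx =>
    obtain ⟨f, hf, rfl⟩ := hx
    dsimp only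
    rw [S.k_pow K p hf, tot_single]
  | zero => simp
  | add x y _ _ hx hy => rw [map_add, hx, hy, map_add, Finsupp.single_add]
  | smul a x _ hx => rw [map_smul, hx, map_smul, Finsupp.smul_single]

theorem gram_bp_aux : ∀ (p : ℕ) (w : P →₀ K),
    S.gram K 2 (2 * p + 2) (Finsupp.single (S.bp p) 1) w = (((S.tower K).k 1 ^ p) w) (S.Om 2) := by
  intro p
  induction p with
  | zero => intro w; exact S.gram_Om K hU 2 w
  | succ p ih =>
    intro w
    rw [S.bp_succ, ← S.tower_c K 1 _ 1, show 2 * (p + 1) + 2 = 2 * p + 2 + 2 by ring,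
      S.gram_c K hU (by omega) (S.single_mem_W K (S.bp_mem p) 1), ih, pow_succ,
      Module.End.mul_apply]

/-- **the Gram functional of `b` is the sum of the coefficients** -/
theorem gram_bp (p : ℕ) {w : P →₀ K} (hw : w ∈ S.W K (2 * p + 2) 2) :
    S.gram K 2 (2 * p + 2) (Finsupp.single (S.bp p) 1) w = tot K w := by
  rw [S.gram_bp_aux K hU, S.k_pow_tot K p hw, Finsupp.single_eq_same]

/-! ### The dual vector of `b` -/

omit hU in
theorem psi_bp : ∀ p : ℕ, psi (S.tower K) p (Finsupp.single (S.bp p) 1) =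
    (-1 : K) ^ p • Finsupp.single (S.Om 2) 1 := by
  intro p
  induction p with
  | zero =>
    have : (S.tower K).e 0 (Finsupp.single (S.Om 2) 1) = 0 := by
      rw [tower_e_lin, lin_single_one, em, S.kOm 2 0 (by omega)]; rfl
    simp only [psi, QQ, pow_zero, one_mul, mul_zero, LinearMap.sub_apply, Module.End.one_apply,
      one_smul]
    change Finsupp.single (S.Om 2) 1 - (S.tower K).e 0 (Finsupp.single (S.Om 2) 1) = _
    rw [this, sub_zero]
  | succ p ih =>
    have := LinearMap.congr_fun (psi_odd (S.tower K) (n := p) (j := 0) (by omega))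
      (Finsupp.single (S.bp p) 1)
    rw [Module.End.mul_apply, LinearMap.neg_apply, ih] at this
    rw [S.bp_succ, ← S.tower_c K 1 _ 1]
    refine this.trans ?_
    rw [pow_succ, mul_neg_one, neg_smul]

omit hU in
theorem psi_ne : ∀ (p : ℕ) {f : P}, f ∈ S.PN (2 * p + 2) 2 →
    psi (S.tower K) p (Finsupp.single f 1) ≠ 0 → f = S.bp p := by
  intro p
  induction p with
  | zero =>
    intro f hf _
    rw [S.PN_two hf]; rfl
  | succ p ih =>
    intro f hf hne
    rcases S.PNind _ _ f hf with ⟨h, _⟩ | ⟨M, g, i, hM, hi, hg, rfl⟩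
    · omega
    · obtain rfl : M = 2 * p + 2 := by omega
      rcases Nat.even_or_odd' i with ⟨j, rfl | rfl⟩
      · exfalso
        have := LinearMap.congr_fun (psi_even (S.tower K) (n := p + 1) (j := j) (by omega))
          (Finsupp.single g 1)
        rw [Module.End.mul_apply, tower_c] at this
        exact hne this
      · have := LinearMap.congr_fun (psi_odd (S.tower K) (n := p) (j := j) (by omega))
          (Finsupp.single g 1)
        rw [Module.End.mul_apply, tower_c, LinearMap.neg_apply] at this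
        rw [this] at hne
        rw [ih hg (neg_ne_zero.1 hne)]
        exact S.c_bp p j (by omega)

omit hU in
theorem psi_apply (p : ℕ) {w : P →₀ K} (hw : w ∈ S.W K (2 * p + 2) 2) :
    psi (S.tower K) p w = ((-1 : K) ^ p * w (S.bp p)) • Finsupp.single (S.Om 2) 1 := by
  classical
  rw [W_eq_span] at hw
  induction hw using Submodule.span_induction with
  | mem x hx =>
    obtain ⟨f, hf, rfl⟩ := hx
    dsimp only
    by_cases h : f = S.bp p
    · rw [h, S.psi_bp K, Finsupp.single_eq_same, mul_one]
    · have : psi (S.tower K) p (Finsupp.single f 1) = 0 := by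
        by_contra hne
        exact h (S.psi_ne K p hf hne)
      rw [this, Finsupp.single_apply, if_neg h, mul_zero, zero_smul]
  | zero => simp
  | add x y _ _ hx hy => rw [map_add, hx, hy, ← add_smul, Finsupp.add_apply, mul_add]
  | smul a x _ hx => rw [map_smul, hx, smul_smul, Finsupp.smul_apply, smul_eq_mul]; ring_nf

omit hU in
theorem QQ_mem {N l : ℕ} : ∀ {n : ℕ}, 2 * n ≤ N → ∀ {v : P →₀ K}, v ∈ S.W K N l →
    QQ (S.tower K) n v ∈ S.W K N l := by
  intro n
  induction n with
  | zero => intro _ v hv; exact hv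
  | succ n ih =>
    intro hn v hv
    rw [QQ_succ, Module.End.mul_apply]
    refine ih (by omega) ?_
    rw [LinearMap.sub_apply, Module.End.one_apply]
    exact Submodule.sub_mem _ hv (S.e_mem K (by omega) hv)

theorem gram_QQ {N l : ℕ} : ∀ {n : ℕ}, 2 * n ≤ N → ∀ {v : P →₀ K}, v ∈ S.W K N l → ∀ w,
    S.gram K l N (QQ (S.tower K) n v) w = S.gram K l N v (QQ (S.tower K) n w) := by
  intro n
  induction n with
  | zero => intro _ v _ w; rfl
  | succ n ih =>
    intro hn v hv w
    have h1 : (1 - (S.tower K).e (2 * n)) v ∈ S.W K N l := by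
      rw [LinearMap.sub_apply, Module.End.one_apply]
      exact Submodule.sub_mem _ hv (S.e_mem K (by omega) hv)
    have h2 : ∀ y, S.gram K l N ((1 - (S.tower K).e (2 * n)) v) y =
        S.gram K l N v ((1 - (S.tower K).e (2 * n)) y) := fun y => by
      have h3 := S.gram_e K hU (i := 2 * n) (by omega) hv y
      simp only [LinearMap.sub_apply, Module.End.one_apply, map_sub, h3]
    rw [QQ_succ, Module.End.mul_apply, ih (by omega) h1, h2, ← Module.End.mul_apply,
      QQ_comm (S.tower K) n n le_rfl, Module.End.mul_apply]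

/-- **(Z1)**: the Gram functional of `Q b` is `(-1)^p` times the coefficient of `b` -/
theorem gram_Qb (p : ℕ) {w : P →₀ K} (hw : w ∈ S.W K (2 * p + 2) 2) :
    S.gram K 2 (2 * p + 2) (QQ (S.tower K) (p + 1) (Finsupp.single (S.bp p) 1)) w =
      (-1 : K) ^ p * w (S.bp p) := by
  have hb := S.single_mem_W K (S.bp_mem p) 1
  rw [S.gram_QQ K hU (by omega) hb, S.gram_bp_aux K hU, ← Module.End.mul_apply]
  change (psi (S.tower K) p w) (S.Om 2) = _
  rw [S.psi_apply K p hw, Finsupp.smul_apply, Finsupp.single_eq_same, smul_eq_mul, mul_one]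

/-! ### The form on the standard module -/

omit hU in
/-- the Gram form on `W N l` -/
noncomputable def GW (N l : ℕ) : S.W K N l →ₗ[K] S.W K N l →ₗ[K] K :=
  ((S.W K N l).subtype.dualMap ∘ₗ S.gram K l N) ∘ₗ (S.W K N l).subtype

omit hU in
theorem GW_apply (N l : ℕ) (v w : S.W K N l) : S.GW K N l v w = S.gram K l N v w := rfl

theorem GW_symm (N l : ℕ) (v w : S.W K N l) : S.GW K N l v w = S.GW K N l w v :=
  S.gram_symm K hU v.2 w.2

theorem GW_DW (N l : ℕ) (p : K) (v w : S.W K N l) :
    S.GW K N l (S.DW K N l p v) w = S.GW K N l v (S.DW K N l p w) := by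
  rw [GW_apply, GW_apply, DW_coe, DW_coe]
  exact S.gram_Dh K hU p N 0 (by omega) v.2 w

end PatSys
end Rect.Alg
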