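import Pool.Agent.Rect.Alg.Inst
import Pool.Agent.Rect.Alg.Gram

/-!
The link patterns `RectAlg.Pat` satisfy the hypothesis of the universal property.
-/

set_option autoImplicit false

namespace RectAlg
open Rect.Alg

theorem patSys_hU (i : ℕ) (g : Pat) : patSys.c i g ≠ patSys.c (i + 1) g := by
  intro h
  have h1 : cupF i g.fn = cupF (i + 1) g.fn := congrArg Pat.fn h
  have h2 := congrFun h1 (i + 1)
  rw [cupF_i1, cupF_i] at h2
  omega

end RectAlg
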