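import Pool.Agent.Rect.Alg.Pos

/-!
# Column sums, Hamiltonian and strong connectivity on the standard modules
-/

set_option autoImplicit false

namespace Rect.Alg
open Module Finset Pool.Agent.Helper9.DR

/-! ### Column sums -/

section tot
variable {P : Type*}

/-- nonnegative operators with column sums at most one -/
def SubSt (A : End ℝ (P →₀ ℝ)) : Prop :=
  OpPos A ∧ ∀ v : P →₀ ℝ, (∀ f, 0 ≤ v f) → tot ℝ (A v) ≤ tot ℝ v

namespace SubSt
variable {A B : End ℝ (P →₀ ℝ)}

theorem one : SubSt (1 : End ℝ (P →₀ ℝ)) := ⟨OpPos.one, fun _ _ => le_rfl⟩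

theorem mul (hA : SubSt A) (hB : SubSt B) : SubSt (A * B) :=
  ⟨hA.1.mul hB.1, fun v hv => (hA.2 _ (hB.1 v hv)).trans (hB.2 v hv)⟩

theorem convex (hA : SubSt A) (hB : SubSt B) {a b : ℝ} (ha : 0 ≤ a) (hb : 0 ≤ b) (hab : a + b = 1) :
    SubSt (a • A + b • B) := by
  refine ⟨(hA.1.smul ha).add (hB.1.smul hb), fun v hv => ?_⟩
  rw [LinearMap.add_apply, LinearMap.smul_apply, LinearMap.smul_apply, map_add, map_smul, map_smul,
    smul_eq_mul, smul_eq_mul]
  have h1 := mul_le_mul_of_nonneg_left (hA.2 v hv) ha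
  have h2 := mul_le_mul_of_nonneg_left (hB.2 v hv) hb
  have h3 : tot ℝ v = a * tot ℝ v + b * tot ℝ v := by rw [← add_mul, hab, one_mul]
  linarith

theorem tot_toV_le (o : Option P) : tot ℝ (toV ℝ o) ≤ 1 := by
  cases o with
  | none => rw [toV_none, map_zero]; exact zero_le_one
  | some g => rw [toV_some, tot_single]

theorem lin (m : P → Option P) : SubSt (lin ℝ m) := by
  refine ⟨OpPos.lin m, fun v hv => ?_⟩
  rw [Rect.Alg.lin, Finsupp.linearCombination_apply, Finsupp.sum, map_sum, tot_apply, Finsupp.sum]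
  refine Finset.sum_le_sum fun g _ => ?_
  rw [map_smul, smul_eq_mul]
  calc v g * tot ℝ (toV ℝ (m g)) ≤ v g * 1 := mul_le_mul_of_nonneg_left (tot_toV_le _) (hv g)
    _ = v g := mul_one _

end SubSt

namespace PatSys
variable (S : PatSys P)

theorem e_sub (i : ℕ) : SubSt ((S.tower ℝ).e i) := by
  rw [tower_e_lin]; exact SubSt.lin _

theorem X_sub (i : ℕ) {p : ℝ} (h0 : 0 ≤ p) (h1 : p ≤ 1) : SubSt ((S.tower ℝ).X i p) := by
  rw [Tower.X_def]
  exact SubSt.one.convex (S.e_sub i) h0 (sub_nonneg.2 h1) (by ring)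

theorem Ah_sub {p : ℝ} (h0 : 0 ≤ p) (h1 : p ≤ 1) (n : ℕ) : ∀ k, SubSt ((S.tower ℝ).Ah n k p) := by
  induction n with
  | zero => intro k; exact SubSt.one
  | succ n ih =>
    intro k
    rw [Tower.Ah_succ]
    exact ((S.X_sub k h0 h1).mul (ih (k + 1))).mul (S.X_sub k h0 h1)

theorem Dh_sub {p : ℝ} (h0 : 0 ≤ p) (h1 : p ≤ 1) (n : ℕ) : ∀ k, SubSt ((S.tower ℝ).Dh n k p) := by
  induction n with
  | zero => intro k; exact SubSt.one
  | succ n ih =>
    intro k
    rw [Tower.Dh_succ]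
    have h3 : 0 ≤ 1 - (1 - p) * (1 - p) := by nlinarith
    exact (S.Ah_sub h0 h1 n k).convex (ih (k + 1)) h3 (mul_self_nonneg _) (by ring)

end PatSys
end tot

/-! ### Strong connectivity -/

namespace PatSys
variable {P : Type*} (S : PatSys P)

/-- one application of a Temperley-Lieb generator on `N` strands -/
def Step (N : ℕ) (f g : P) : Prop := ∃ i, i + 2 ≤ N ∧ S.em i f = some g

theorem toV_inj_rat {o o' : Option P} (h : toV ℚ o = toV ℚ o') : o = o' := by
  cases o with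
  | none =>
    cases o' with
    | none => rfl
    | some g =>
      have := DFunLike.congr_fun h g
      simp at this
  | some f =>
    cases o' with
    | none =>
      have := DFunLike.congr_fun h f
      simp at this
    | some g =>
      rw [toV_some, toV_some] at h
      rw [Finsupp.single_left_injective one_ne_zero h]

theorem em_of_tower {i j : ℕ} {f : P} {o : Option P}
    (h : (S.tower ℚ).e i ((S.tower ℚ).c j (Finsupp.single f 1)) = toV ℚ o) :
    S.em i (S.c j f) = o := by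
  rw [tower_c, tower_e_lin, lin_single_one] at h
  exact toV_inj_rat h

theorem em_c_lt {i j : ℕ} (h : j + 2 ≤ i) (f : P) : S.em j (S.c i f) = (S.em j f).map (S.c i) := by
  refine S.em_of_tower ?_
  rw [← Module.End.mul_apply, DR.Braid.ec_far _ h, Module.End.mul_apply, tower_e_lin,
    lin_single_one, tower_c_lin, lin_toV]
  cases S.em j f <;> rfl

theorem em_c_ge {i j : ℕ} (h : i ≤ j) (f : P) :
    S.em (j + 2) (S.c i f) = (S.em j f).map (S.c i) := by
  refine S.em_of_tower ?_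
  rw [← Module.End.mul_apply, Tower.ec _ h, Module.End.mul_apply, tower_e_lin,
    lin_single_one, tower_c_lin, lin_toV]
  cases S.em j f <;> rfl

theorem em_succ_c (i : ℕ) (f : P) : S.em (i + 1) (S.c i f) = some (S.c (i + 1) f) := by
  rw [em, S.kcl]; rfl

theorem em_c_succ (i : ℕ) (f : P) : S.em i (S.c (i + 1) f) = some (S.c i f) := by
  rw [em, S.kcr]; rfl

open Relation

/-- moving a small arc -/
theorem reach_move {N : ℕ} (f : P) : ∀ i j, i ≤ N → j ≤ N →
    ReflTransGen (S.Step (N + 2)) (S.c i f) (S.c j f) := by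
  have up : ∀ i d, i + d ≤ N → ReflTransGen (S.Step (N + 2)) (S.c i f) (S.c (i + d) f) := by
    intro i d
    induction d with
    | zero => intro _; exact ReflTransGen.refl
    | succ d ih =>
      intro h
      exact (ih (by omega)).tail ⟨i + d + 1, by omega, S.em_succ_c (i + d) f⟩
  have dn : ∀ i d, i + d ≤ N → ReflTransGen (S.Step (N + 2)) (S.c (i + d) f) (S.c i f) := by
    intro i d
    induction d with
    | zero => intro _; exact ReflTransGen.refl
    | succ d ih =>
      intro h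
      exact ReflTransGen.head ⟨i + d, by omega, S.em_c_succ (i + d) f⟩ (ih (by omega))
  intro i j hi hj
  rcases Nat.le_total i j with h | h
  · obtain ⟨d, rfl⟩ := Nat.exists_eq_add_of_le h
    exact up i d hj
  · obtain ⟨d, rfl⟩ := Nat.exists_eq_add_of_le h
    exact dn j d hi

theorem reach_cup {N : ℕ} {f g : P} (h : S.Step N f g) (i : ℕ) (hi : i ≤ N) :
    ReflTransGen (S.Step (N + 2)) (S.c i f) (S.c i g) := by
  obtain ⟨j, hj, hfg⟩ := h
  rcases Nat.lt_or_ge j i with h1 | h1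
  · rcases Nat.lt_or_ge (j + 1) i with h2 | h2
    · refine ReflTransGen.single ⟨j, by omega, ?_⟩
      rw [S.em_c_lt h2, hfg]; rfl
    · obtain rfl : i = j + 1 := by omega
      have a1 : S.Step (N + 2) (S.c (j + 1) f) (S.c (j + 2) f) :=
        ⟨j + 2, by omega, S.em_succ_c (j + 1) f⟩
      have a2 : S.Step (N + 2) (S.c (j + 2) f) (S.c (j + 2) g) := by
        refine ⟨j, by omega, ?_⟩
        rw [S.em_c_lt le_rfl, hfg]; rfl
      have a3 : S.Step (N + 2) (S.c (j + 2) g) (S.c (j + 1) g) :=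
        ⟨j + 1, by omega, S.em_c_succ (j + 1) g⟩
      exact ((ReflTransGen.single a1).tail a2).tail a3
  · refine ReflTransGen.single ⟨j + 2, by omega, ?_⟩
    rw [S.em_c_ge h1, hfg]; rfl

theorem reach_cups {N : ℕ} {f g : P} (h : ReflTransGen (S.Step N) f g) (i : ℕ) (hi : i ≤ N) :
    ReflTransGen (S.Step (N + 2)) (S.c i f) (S.c i g) := by
  induction h with
  | refl => exact ReflTransGen.refl
  | tail _ h ih => exact ih.trans (S.reach_cup h i hi)

theorem le_of_mem {l : ℕ} : ∀ (N : ℕ) (f : P), f ∈ S.PN N l → l ≤ N := by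
  intro N
  induction N using Nat.strong_induction_on with
  | _ N ih =>
    intro f hf
    rcases S.PNind N l f hf with ⟨rfl, -⟩ | ⟨M, g, i, rfl, hi, hg, rfl⟩
    · exact le_rfl
    · have := ih M (by omega) g hg
      omega

/-- **strong connectivity** of the standard module -/
theorem reach {l : ℕ} : ∀ (N : ℕ) (f g : P), f ∈ S.PN N l → g ∈ S.PN N l →
    ReflTransGen (S.Step N) f g := by
  intro N
  induction N using Nat.strong_induction_on with
  | _ N ih =>
    intro f g hf hg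
    rcases S.PNind N l f hf with ⟨h1, h2⟩ | ⟨M, f', i, h1, hi, hf', rfl⟩
    · rcases S.PNind N l g hg with ⟨h3, h4⟩ | ⟨M', g', j, h3, hj, hg', rfl⟩
      · rw [h2, h4]
      · have := S.le_of_mem M' g' hg'
        omega
    · rcases S.PNind N l g hg with ⟨h3, h4⟩ | ⟨M', g', j, h3, hj, hg', rfl⟩
      · have := S.le_of_mem M f' hf'
        omega
      · obtain rfl : M' = M := by omega
        subst h1
        exact (S.reach_cups (ih M' (by omega) f' g' hf' hg') i hi).trans
          (S.reach_move g' i j hi hj)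

theorem step_mem {N l : ℕ} {f g : P} (hf : f ∈ S.PN N l) (h : S.Step N f g) : g ∈ S.PN N l := by
  obtain ⟨i, hi, hg⟩ := h
  obtain ⟨M, rfl⟩ : ∃ M, N = M + 2 := ⟨N - 2, by omega⟩
  rw [em] at hg
  obtain ⟨g', h1, rfl⟩ := Option.map_eq_some_iff.1 hg
  exact S.PNc M l i g' (S.PNk M l i f g' hf (by omega) h1) (by omega)

/-- connectivity inside the set of patterns -/
theorem reach_sub {N l : ℕ} (f g : S.PN N l) :
    ReflTransGen (fun a b : S.PN N l => S.Step N a b) f g := by
  have key : ∀ (a b : P), ReflTransGen (S.Step N) a b → ∀ (ha : a ∈ S.PN N l),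
      ∃ hb : b ∈ S.PN N l, ReflTransGen (fun a b : S.PN N l => S.Step N a b) ⟨a, ha⟩ ⟨b, hb⟩ := by
    intro a b h ha
    induction h with
    | refl => exact ⟨ha, ReflTransGen.refl⟩
    | tail _ h ih =>
      obtain ⟨hb, h2⟩ := ih
      exact ⟨S.step_mem hb h, h2.tail h⟩
  obtain ⟨_, h⟩ := key f g (S.reach N f g f.2 g.2) f.2
  exact h

/-! ### The Hamiltonian -/

variable (K : Type*) [Field K]

/-- the Hamiltonian `2 (e_0 + ... + e_(N-2))` on the tower -/
noncomputable def hT (N : ℕ) : End K (P →₀ K) := (2 : K) • ∑ i ∈ range (N - 1), (S.tower K).e i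

theorem hT_mem {N l : ℕ} {v : P →₀ K} (hv : v ∈ S.W K N l) : S.hT K N v ∈ S.W K N l := by
  rw [hT, LinearMap.smul_apply, LinearMap.sum_apply]
  refine Submodule.smul_mem _ _ (Submodule.sum_mem _ fun i hi => ?_)
  have := Finset.mem_range.1 hi
  exact S.e_mem K (by omega) hv

/-- the Hamiltonian `2 (e_0 + ... + e_(N-2))` on the standard module -/
noncomputable def hW (N l : ℕ) : End K (S.W K N l) :=
  (S.hT K N).restrict fun _ hv => S.hT_mem K hv

theorem hW_coe (N l : ℕ) (v : S.W K N l) :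
    ((S.hW K N l v : S.W K N l) : P →₀ K) = S.hT K N v := rfl

theorem hT_apply (N : ℕ) (v : P →₀ K) :
    S.hT K N v = (2 : K) • ∑ i ∈ range (N - 1), (S.tower K).e i v := by
  rw [hT, LinearMap.smul_apply, LinearMap.sum_apply]

theorem hT_pos (N : ℕ) : OpPos (S.hT ℝ N) := (OpPos.sum fun i _ => S.e_pos i).smul (by norm_num)

/-! ### The data of the Hermitian family -/

variable {N l : ℕ}

theorem repr_D (p : K) (g f : S.PN N l) :
    (S.basis K N l).repr (S.DW K N l p (S.basis K N l g)) f =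
      (S.tower K).Dh N 0 p (Finsupp.single (g : P) 1) f := by
  rw [basis_repr, DW_coe, basis_apply]

theorem repr_h (g f : S.PN N l) :
    (S.basis K N l).repr (S.hW K N l (S.basis K N l g)) f =
      S.hT K N (Finsupp.single (g : P) 1) f := by
  rw [basis_repr, hW_coe, basis_apply]

theorem repr_one (g f : S.PN N l) :
    (S.basis K N l).repr (S.basis K N l g) f = Finsupp.single (g : P) (1 : K) f := by
  rw [basis_repr, basis_apply]

theorem single_nn (g : P) (f : P) : 0 ≤ (Finsupp.single g (1 : ℝ)) f :=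
  Finsupp.single_nonneg.2 zero_le_one f

theorem D_nonneg {p : ℝ} (h0 : 0 ≤ p) (h1 : p ≤ 1) (f g : S.PN N l) :
    0 ≤ (S.basis ℝ N l).repr (S.DW ℝ N l p (S.basis ℝ N l g)) f := by
  rw [repr_D]
  exact S.Dh_pos h0 h1 N 0 _ (single_nn _) f

theorem h_nonneg (f g : S.PN N l) :
    0 ≤ (S.basis ℝ N l).repr (S.hW ℝ N l (S.basis ℝ N l g)) f := by
  rw [repr_h]
  exact S.hT_pos N _ (single_nn _) f

theorem h_step {f g : P} (h : S.Step N f g) : 0 < S.hT ℝ N (Finsupp.single f 1) g := by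
  obtain ⟨i, hi, hg⟩ := h
  rw [hT_apply, Finsupp.smul_apply, Finsupp.finsetSum_apply, smul_eq_mul]
  refine mul_pos two_pos (Finset.sum_pos' (fun j _ => S.e_pos j _ (single_nn f) g)
    ⟨i, Finset.mem_range.2 (by omega), ?_⟩)
  rw [tower_e_lin, lin_single_one, hg, toV_some, Finsupp.single_eq_same]
  exact one_pos

theorem h_irr (f g : S.PN N l) : ReflTransGen
    (fun a c => 0 < (S.basis ℝ N l).repr (S.hW ℝ N l (S.basis ℝ N l a)) c) f g := by
  refine ReflTransGen.mono (fun a b h => ?_) _ _ (S.reach_sub f g)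
  rw [repr_h]
  exact S.h_step h

/-- the constant of the lower bound -/
noncomputable def epsD (N : ℕ) (p : ℝ) : ℝ := p ^ (2 * N) * (1 - p) / (2 * N + 1)

theorem epsD_pos (N : ℕ) {p : ℝ} (h0 : 0 < p) (h1 : p < 1) : 0 < epsD N p := by
  have := sub_pos.2 h1
  rw [epsD]; positivity

theorem dom_D_h {p : ℝ} (h0 : 0 ≤ p) (h1 : p ≤ 1) (N : ℕ) :
    Dom (epsD N p • (S.hT ℝ N + 1)) ((S.tower ℝ).Dh N 0 p) := by
  have hN : (0 : ℝ) < 2 * N + 1 := by positivity
  have hp1 : 0 ≤ 1 - p := sub_nonneg.2 h1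
  set D := (S.tower ℝ).Dh N 0 p with hD
  have hDp : OpPos D := S.Dh_pos h0 h1 N 0
  set δ := p ^ (2 * N) * (1 - p) with hδ
  have hδ0 : 0 ≤ δ := mul_nonneg (by positivity) hp1
  have a1 : Dom (δ • (1 : End ℝ (P →₀ ℝ))) D := by
    refine Dom.trans (Dom.smul_le OpPos.one ?_) (S.dom_D_one h0 h1 N 0)
    calc p ^ (2 * N) * (1 - p) ≤ p ^ (2 * N) * 1 :=
          mul_le_mul_of_nonneg_left (by linarith) (by positivity)
      _ = p ^ (2 * N) := mul_one _
  have a2 : ∀ j ∈ range (N - 1), Dom (δ • (S.tower ℝ).e j) D := fun j hj => by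
    have := Finset.mem_range.1 hj
    exact S.dom_D_e h0 h1 N 0 j (Nat.zero_le j) (by omega)
  have a3 := ((Dom.sum a2).smul (a := 2) (by norm_num)).add a1
  have a4 : Dom ((2 : ℝ) • ∑ i ∈ range (N - 1), D + D) ((2 * N + 1 : ℝ) • D) := by
    rw [Finset.sum_const, Finset.card_range]
    have e1 : (2 : ℝ) • (N - 1) • D + D = (2 * ((N - 1 : ℕ) : ℝ) + 1) • D := by
      rw [← Nat.cast_smul_eq_nsmul ℝ (N - 1) D]
      module
    rw [e1]
    refine Dom.smul_le hDp ?_
    have : ((N - 1 : ℕ) : ℝ) ≤ N := by exact_mod_cast Nat.sub_le N 1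
    linarith
  have a5 := (a3.trans a4).smul (a := (2 * N + 1 : ℝ)⁻¹) (by positivity)
  have e2 : (2 * N + 1 : ℝ)⁻¹ • (2 * N + 1 : ℝ) • D = D := by
    rw [smul_smul, inv_mul_cancel₀ hN.ne', one_smul]
  rw [e2] at a5
  refine a5.of_eq ?_
  rw [hT, epsD, ← hδ, ← Finset.smul_sum]
  rw [smul_add, smul_add, smul_smul, smul_smul, smul_smul, smul_smul, div_eq_inv_mul]
  congr 2
  ring

theorem D_dom {p : ℝ} (h0 : 0 ≤ p) (h1 : p ≤ 1) (f g : S.PN N l) :
    epsD N p * ((S.basis ℝ N l).repr (S.hW ℝ N l (S.basis ℝ N l g)) f +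
      (S.basis ℝ N l).repr (S.basis ℝ N l g) f) ≤
      (S.basis ℝ N l).repr (S.DW ℝ N l p (S.basis ℝ N l g)) f := by
  rw [repr_D, repr_h, repr_one]
  have := S.dom_D_h h0 h1 N _ (single_nn (g : P)) f
  simpa only [LinearMap.smul_apply, LinearMap.add_apply, Module.End.one_apply, Finsupp.smul_apply,
    Finsupp.add_apply, smul_eq_mul] using this

/-- the sum over the patterns is the total sum -/
theorem sum_repr (v : S.W K N l) : ∑ f, (S.basis K N l).repr v f = tot K (v : P →₀ K) := by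
  rw [tot_apply, Finsupp.sum]
  simp only [basis_repr]
  rw [Finset.sum_coe_sort (S.PN N l) (fun f => (v : P →₀ K) f)]
  symm
  refine Finset.sum_subset (fun f hf => ?_) (fun f _ hf => ?_)
  · exact (S.mem_W K).1 v.2 f (Finsupp.mem_support_iff.1 hf)
  · exact Finsupp.notMem_support_iff.1 hf

theorem D_colsum {p : ℝ} (h0 : 0 ≤ p) (h1 : p ≤ 1) (g : S.PN N l) :
    ∑ f, (S.basis ℝ N l).repr (S.DW ℝ N l p (S.basis ℝ N l g)) f ≤ 1 := by
  rw [sum_repr, DW_coe, basis_apply]
  refine ((S.Dh_sub h0 h1 N 0).2 _ (single_nn _)).trans ?_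
  rw [tot_single]

theorem h_colsum_eq (g : S.PN N l) :
    ∑ f, (S.basis ℝ N l).repr (S.hW ℝ N l (S.basis ℝ N l g)) f =
      2 * ∑ i ∈ range (N - 1), tot ℝ (toV ℝ (S.em i g)) := by
  rw [sum_repr, hW_coe, basis_apply, hT_apply, map_smul, map_sum, smul_eq_mul]
  simp only [tower_e_lin, lin_single_one]

theorem h_colsum (hN : 1 ≤ N) (g : S.PN N l) :
    ∑ f, (S.basis ℝ N l).repr (S.hW ℝ N l (S.basis ℝ N l g)) f ≤ 2 * ((N : ℝ) - 1) := by
  rw [h_colsum_eq]
  have h1 := Finset.sum_le_sum (s := range (N - 1)) (f := fun i => tot ℝ (toV ℝ (S.em i g)))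
    (g := fun _ => (1 : ℝ)) fun i _ => SubSt.tot_toV_le _
  rw [Finset.sum_const, Finset.card_range, nsmul_eq_mul, mul_one, Nat.cast_sub hN,
    Nat.cast_one] at h1
  linarith

theorem h_colsum_lt (hN : 1 ≤ N) (g : S.PN N l) {i : ℕ} (hi : i + 2 ≤ N) (hg : S.em i g = none) :
    ∑ f, (S.basis ℝ N l).repr (S.hW ℝ N l (S.basis ℝ N l g)) f < 2 * ((N : ℝ) - 1) := by
  rw [h_colsum_eq]
  have h1 := Finset.sum_lt_sum (s := range (N - 1)) (f := fun i => tot ℝ (toV ℝ (S.em i g)))
    (g := fun _ => (1 : ℝ)) (fun i _ => SubSt.tot_toV_le _)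
    ⟨i, Finset.mem_range.2 (by omega), by rw [hg, toV_none, map_zero]; exact one_pos⟩
  rw [Finset.sum_const, Finset.card_range, nsmul_eq_mul, mul_one, Nat.cast_sub hN,
    Nat.cast_one] at h1
  linarith

/-! ### Some patterns -/

/-- `m` small arcs inserted at position `i` -/
def cups (i : ℕ) (m : ℕ) (f : P) : P := (S.c i)^[m] f

theorem cups_zero (i : ℕ) (f : P) : S.cups i 0 f = f := rfl

theorem cups_succ (i m : ℕ) (f : P) : S.cups i (m + 1) f = S.c i (S.cups i m f) :=
  Function.iterate_succ_apply' _ _ _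

theorem cups_mem {l N : ℕ} {i : ℕ} (hi : i ≤ N) {f : P} (hf : f ∈ S.PN N l) (m : ℕ) :
    S.cups i m f ∈ S.PN (N + 2 * m) l := by
  induction m with
  | zero => exact hf
  | succ m ih => rw [cups_succ]; exact S.PNc (N + 2 * m) l i _ ih (by omega)

/-- a pattern with two adjacent defects on the left -/
theorem em_cups_none {l : ℕ} (hl : 2 ≤ l) (m : ℕ) : S.em 0 (S.cups 2 m (S.Om l)) = none := by
  induction m with
  | zero => rw [cups_zero, em, S.kOm l 0 (by omega)]; rfl
  | succ m ih => rw [cups_succ, S.em_c_lt le_rfl, ih]; rfl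

theorem h_colsum_strict (hl : 2 ≤ l) (m : ℕ) :
    ∃ g : S.PN (l + 2 * m) l, ∑ f, (S.basis ℝ (l + 2 * m) l).repr
      (S.hW ℝ (l + 2 * m) l (S.basis ℝ (l + 2 * m) l g)) f < 2 * (((l + 2 * m : ℕ) : ℝ) - 1) :=
  ⟨⟨_, S.cups_mem (hl.trans le_rfl) (S.Om_mem l) m⟩,
    S.h_colsum_lt (by omega) _ (i := 0) (by omega) (S.em_cups_none hl m)⟩

end PatSys
end Rect.Alg
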