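import Pool.Agent.Rect.Alg.Gram

/-!
# The vector `z = (-1)^p P Q b`

`PP p = (1 + e_{2p-1}) ... (1 + e_1)`.  The Gram functional of `z` is `w ↦ [b] P w`, the sum of the
merged events.
-/

set_option autoImplicit false

namespace Rect.Alg
open Module Finset Pool.Agent.Helper9.DR Pool.Agent.Helper30.Rect

section T
variable {K : Type*} [Field K] {V : Type*} [AddCommGroup V] [Module K V] (T : Tower K V)

/-- `(1 + e_{2p-1}) ... (1 + e_1)` -/
def PP : ℕ → End K V
  | 0 => 1
  | n + 1 => (1 + T.e (2 * n + 1)) * PP n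

theorem PP_succ (n : ℕ) : PP T (n + 1) = (1 + T.e (2 * n + 1)) * PP T n := rfl

theorem PP_comm (n m : ℕ) (h : n ≤ m) :
    (1 + T.e (2 * m + 1)) * PP T n = PP T n * (1 + T.e (2 * m + 1)) := by
  induction n with
  | zero => simp [PP]
  | succ n ih =>
    have h1 : T.e (2 * m + 1) * T.e (2 * n + 1) = T.e (2 * n + 1) * T.e (2 * m + 1) :=
      T.ecomm (by omega)
    have h2 : (1 + T.e (2 * m + 1)) * (1 + T.e (2 * n + 1)) =
        (1 + T.e (2 * n + 1)) * (1 + T.e (2 * m + 1)) := by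
      rw [mul_add, mul_add, add_mul, add_mul, h1]
      noncomm_ring
    rw [PP_succ, ← mul_assoc, h2, mul_assoc, ih (by omega), mul_assoc]

end T

namespace PatSys

variable {P : Type*} (S : PatSys P) (K : Type*) [Field K]

theorem PP_mem {N l : ℕ} : ∀ {n : ℕ}, 2 * n + 1 ≤ N → ∀ {v : P →₀ K}, v ∈ S.W K N l →
    PP (S.tower K) n v ∈ S.W K N l := by
  intro n
  induction n with
  | zero => intro _ v hv; exact hv
  | succ n ih =>
    intro hn v hv
    rw [PP_succ, Module.End.mul_apply, LinearMap.add_apply, Module.End.one_apply]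
    exact Submodule.add_mem _ (ih (by omega) hv) (S.e_mem K (by omega) (ih (by omega) hv))

/-- the dual vector of `b` -/
noncomputable def bstar (p : ℕ) : P →₀ K :=
  (-1 : K) ^ p • QQ (S.tower K) (p + 1) (Finsupp.single (S.bp p) 1)

theorem bstar_mem (p : ℕ) : S.bstar K p ∈ S.W K (2 * p + 2) 2 :=
  Submodule.smul_mem _ _ (S.QQ_mem K (by omega) (S.single_mem_W K (S.bp_mem p) 1))

/-- `z = P b*` -/
noncomputable def zvec (p : ℕ) : P →₀ K := PP (S.tower K) p (S.bstar K p)

theorem zvec_mem (p : ℕ) : S.zvec K p ∈ S.W K (2 * p + 2) 2 :=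
  S.PP_mem K (by omega) (S.bstar_mem K p)

variable (hU : ∀ i g, S.c i g ≠ S.c (i + 1) g)
include hU

theorem gram_PP {N l : ℕ} : ∀ {n : ℕ}, 2 * n + 1 ≤ N → ∀ {v : P →₀ K}, v ∈ S.W K N l → ∀ w,
    S.gram K l N (PP (S.tower K) n v) w = S.gram K l N v (PP (S.tower K) n w) := by
  intro n
  induction n with
  | zero => intro _ v _ w; rfl
  | succ n ih =>
    intro hn v hv w
    have h1 : PP (S.tower K) n v ∈ S.W K N l := S.PP_mem K (by omega) hv
    have h2 : S.gram K l N ((1 + (S.tower K).e (2 * n + 1)) (PP (S.tower K) n v)) w =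
        S.gram K l N (PP (S.tower K) n v) ((1 + (S.tower K).e (2 * n + 1)) w) := by
      have h3 := S.gram_e K hU (i := 2 * n + 1) (by omega) h1 w
      simp only [LinearMap.add_apply, Module.End.one_apply, map_add, h3]
    rw [PP_succ, Module.End.mul_apply, h2, ih (by omega) hv, ← Module.End.mul_apply,
      ← PP_comm (S.tower K) n n le_rfl]

/-- `G(b*, w) = [b] w` -/
theorem gram_bstar (p : ℕ) {w : P →₀ K} (hw : w ∈ S.W K (2 * p + 2) 2) :
    S.gram K 2 (2 * p + 2) (S.bstar K p) w = w (S.bp p) := by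
  rw [bstar, map_smul, LinearMap.smul_apply, S.gram_Qb K hU p hw, smul_eq_mul, ← mul_assoc,
    ← pow_add, Even.neg_one_pow ⟨p, rfl⟩, one_mul]

/-- **`G(z, w) = [b] P w`** -/
theorem gram_zvec (p : ℕ) {w : P →₀ K} (hw : w ∈ S.W K (2 * p + 2) 2) :
    S.gram K 2 (2 * p + 2) (S.zvec K p) w = (PP (S.tower K) p w) (S.bp p) := by
  rw [zvec, S.gram_PP K hU (by omega) (S.bstar_mem K p),
    S.gram_bstar K hU p (S.PP_mem K (by omega) hw)]

end PatSys
end Rect.Alg
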