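import Mathlib

/-!
# The tower of link patterns

A pattern is an involution `f : ℕ → ℕ`; the fixed points are the defects (the strands `0, 1, 2, ...`;
a pattern on `N` strands is the identity from `N` on).  `cupF i` inserts the arc `(i, i+1)`, `capF i`
contracts the strands `i`, `i+1` (which is zero when both are defects, see `Dead`).
The laws `Pat.kc`, ..., `Pat.sk` are those of the planar tower of loop weight `1` (`DR/Alg.lean`).
-/

set_option autoImplicit false

namespace RectAlg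

/-- the partner of `s` after `x` and `y` have been contracted -/
def J (x y : ℕ) (f : ℕ → ℕ) (s : ℕ) : ℕ :=
  if f s = x then (if f y = y then s else f y) else
    if f s = y then (if f x = x then s else f x) else f s

/-- new name of the old strand `t` after a cup at `i` -/
def up (i t : ℕ) : ℕ := if t < i then t else t + 2
/-- old name of the new strand `t` -/
def dn (i t : ℕ) : ℕ := if t < i then t else t - 2

lemma dn_up (i t : ℕ) : dn i (up i t) = t := by
  unfold up dn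
  split_ifs <;> omega

lemma up_dn {i t : ℕ} (h1 : t ≠ i) (h2 : t ≠ i + 1) : up i (dn i t) = t := by
  unfold up dn
  split_ifs <;> omega

lemma up_ne (i t : ℕ) : up i t ≠ i := by
  unfold up
  split_ifs <;> omega

lemma up_ne' (i t : ℕ) : up i t ≠ i + 1 := by
  unfold up
  split_ifs <;> omega

lemma up_inj {i s t : ℕ} : up i s = up i t ↔ s = t := by
  constructor
  · intro h
    have := dn_up i s
    rw [h, dn_up] at this
    exact this.symm
  · intro h
    rw [h]

lemma up_cases (i s : ℕ) : s = i ∨ s = i + 1 ∨ ∃ t, s = up i t := by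
  by_cases h1 : s = i
  · exact Or.inl h1
  by_cases h2 : s = i + 1
  · exact Or.inr (Or.inl h2)
  · exact Or.inr (Or.inr ⟨dn i s, (up_dn h1 h2).symm⟩)

/-- insert an arc -/
def cupF (i : ℕ) (f : ℕ → ℕ) : ℕ → ℕ := fun s =>
  if s = i then i + 1 else if s = i + 1 then i else up i (f (dn i s))

/-- contract -/
def capF (i : ℕ) (f : ℕ → ℕ) : ℕ → ℕ := fun s => dn i (J i (i + 1) f (up i s))

/-- both strands are defects -/
def Dead (i : ℕ) (f : ℕ → ℕ) : Prop := f i = i ∧ f (i + 1) = i + 1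

instance (i : ℕ) (f : ℕ → ℕ) : Decidable (Dead i f) := by unfold Dead; infer_instance

/-- the Temperley-Lieb generator -/
def eF (i : ℕ) (f : ℕ → ℕ) : ℕ → ℕ := fun s =>
  if s = i then i + 1 else if s = i + 1 then i else J i (i + 1) f s

lemma cupF_i (i : ℕ) (f : ℕ → ℕ) : cupF i f i = i + 1 := by simp [cupF]

lemma cupF_i1 (i : ℕ) (f : ℕ → ℕ) : cupF i f (i + 1) = i := by simp [cupF]

lemma cupF_up (i : ℕ) (f : ℕ → ℕ) (t : ℕ) : cupF i f (up i t) = up i (f t) := by
  unfold cupF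
  rw [if_neg (up_ne i t), if_neg (up_ne' i t), dn_up]

lemma eF_i (i : ℕ) (f : ℕ → ℕ) : eF i f i = i + 1 := by simp [eF]

lemma eF_i1 (i : ℕ) (f : ℕ → ℕ) : eF i f (i + 1) = i := by simp [eF]

lemma eF_other {i s : ℕ} (f : ℕ → ℕ) (h1 : s ≠ i) (h2 : s ≠ i + 1) : eF i f s = J i (i + 1) f s := by
  unfold eF
  rw [if_neg h1, if_neg h2]

/-- involutions -/
abbrev Inv (f : ℕ → ℕ) : Prop := ∀ s, f (f s) = s

lemma inv_cupF {f : ℕ → ℕ} (hf : Inv f) (i : ℕ) : Inv (cupF i f) := by
  intro s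
  rcases up_cases i s with rfl | rfl | ⟨t, rfl⟩
  · rw [cupF_i, cupF_i1]
  · rw [cupF_i1, cupF_i]
  · rw [cupF_up, cupF_up, hf]

lemma J_ne {f : ℕ → ℕ} (hf : Inv f) {x y s : ℕ} (hx : s ≠ x) (hy : s ≠ y) :
    J x y f s ≠ x ∧ J x y f s ≠ y := by
  have a1 := hf x
  have a2 := hf y
  have a5 := hf s
  unfold J
  grind

lemma JJs {f : ℕ → ℕ} (hf : Inv f) {x y s : ℕ} (hxy : x ≠ y) (hx : s ≠ x) (hy : s ≠ y) :
    J x y f (J x y f s) = s := by
  have a1 := hf x
  have a2 := hf y
  have a5 := hf s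
  unfold J
  grind

lemma up_capF {f : ℕ → ℕ} (hf : Inv f) (i t : ℕ) : up i (capF i f t) = J i (i + 1) f (up i t) := by
  have h := J_ne hf (x := i) (y := i + 1) (up_ne i t) (up_ne' i t)
  exact up_dn h.1 h.2

lemma inv_capF {f : ℕ → ℕ} (hf : Inv f) (i : ℕ) : Inv (capF i f) := by
  intro s
  rw [← up_inj (i := i), up_capF hf, up_capF hf, JJs hf (by omega) (up_ne i s) (up_ne' i s)]

lemma cup_cap {f : ℕ → ℕ} (hf : Inv f) (i : ℕ) : cupF i (capF i f) = eF i f := by
  funext s
  rcases up_cases i s with rfl | rfl | ⟨t, rfl⟩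
  · rw [cupF_i, eF_i]
  · rw [cupF_i1, eF_i1]
  · rw [cupF_up, up_capF hf, eF_other f (up_ne i t) (up_ne' i t)]

lemma inv_eF {f : ℕ → ℕ} (hf : Inv f) (i : ℕ) : Inv (eF i f) := by
  rw [← cup_cap hf]
  exact inv_cupF (inv_capF hf i) i

/-! ### the axioms of the tower -/

lemma not_dead_kc (i : ℕ) (f : ℕ → ℕ) : ¬ Dead i (cupF i f) := by
  rintro ⟨h, _⟩
  rw [cupF_i] at h
  omega

lemma not_dead_kcr (i : ℕ) (f : ℕ → ℕ) : ¬ Dead i (cupF (i + 1) f) := by
  rintro ⟨_, h⟩
  rw [cupF_i] at h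
  omega

lemma not_dead_kcl (i : ℕ) (f : ℕ → ℕ) : ¬ Dead (i + 1) (cupF i f) := by
  rintro ⟨h, _⟩
  rw [cupF_i1] at h
  omega

lemma cap_cup {f : ℕ → ℕ} (i : ℕ) : capF i (cupF i f) = f := by
  funext s
  have h : J i (i + 1) (cupF i f) (up i s) = up i (f s) := by
    unfold J
    rw [cupF_up, if_neg (up_ne i _), if_neg (up_ne' i _)]
  unfold capF
  rw [h, dn_up]

lemma cap_cupr {f : ℕ → ℕ} (hf : Inv f) (i : ℕ) : capF i (cupF (i + 1) f) = f := by
  funext s
  unfold capF J cupF up dn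
  have a1 := hf i
  have a2 := hf s
  grind

lemma cap_cupl {f : ℕ → ℕ} (hf : Inv f) (i : ℕ) : capF (i + 1) (cupF i f) = f := by
  funext s
  unfold capF J cupF up dn
  have a1 := hf i
  have a2 := hf s
  grind

lemma up_up {i j t : ℕ} (h : i ≤ j) : up i (up j t) = up (j + 2) (up i t) := by
  unfold up
  split_ifs <;> omega

lemma up_lt {i t : ℕ} (h : t < i) : up i t = t := by
  unfold up
  rw [if_pos h]

lemma up_ge {i t : ℕ} (h : i ≤ t) : up i t = t + 2 := by
  unfold up
  rw [if_neg (by omega)]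

lemma up_eq_iff {i j t : ℕ} (h : i ≤ j) : up i t = j + 2 ↔ t = j := by
  unfold up
  split_ifs <;> omega

/-- naturality of the contraction -/
lemma J_cup {f : ℕ → ℕ} {i j : ℕ} (h : i ≤ j) (t : ℕ) :
    J (j + 2) (j + 2 + 1) (cupF i f) (up i t) = up i (J j (j + 1) f t) := by
  have e1 : ∀ t, up i t = j + 2 ↔ t = j := fun t => up_eq_iff h
  have e2 : ∀ t, up i t = j + 2 + 1 ↔ t = j + 1 := fun t => by
    unfold up
    split_ifs <;> omega
  have e3 : cupF i f (j + 2) = up i (f j) := by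
    rw [← cupF_up, (e1 j).2 rfl]
  have e4 : cupF i f (j + 2 + 1) = up i (f (j + 1)) := by
    rw [← cupF_up, (e2 (j + 1)).2 rfl]
  unfold J
  simp only [cupF_up, e3, e4, e1, e2]
  split_ifs <;> rfl

lemma e_cup {f : ℕ → ℕ} {i j : ℕ} (h : i ≤ j) : eF (j + 2) (cupF i f) = cupF i (eF j f) := by
  funext s
  have e1 : ∀ t, up i t = j + 2 ↔ t = j := fun t => up_eq_iff h
  have e2 : ∀ t, up i t = j + 2 + 1 ↔ t = j + 1 := fun t => by
    unfold up
    split_ifs <;> omega
  rcases up_cases i s with rfl | rfl | ⟨t, rfl⟩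
  · rw [cupF_i, eF_other _ (by omega) (by omega)]
    unfold J
    rw [cupF_i, if_neg (by omega), if_neg (by omega)]
  · rw [cupF_i1, eF_other _ (by omega) (by omega)]
    unfold J
    rw [cupF_i1, if_neg (by omega), if_neg (by omega)]
  · rw [cupF_up]
    by_cases h1 : t = j
    · rw [h1, eF_i, (e1 j).2 rfl, eF_i, (e2 (j + 1)).2 rfl]
    by_cases h2 : t = j + 1
    · rw [h2, eF_i1, (e2 (j + 1)).2 rfl, eF_i1, (e1 j).2 rfl]
    rw [eF_other f h1 h2, eF_other _ (fun h3 => h1 ((e1 t).1 h3)) (fun h3 => h2 ((e2 t).1 h3)),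
      J_cup h]

lemma dead_cup {f : ℕ → ℕ} {i j : ℕ} (h : i ≤ j) : Dead (j + 2) (cupF i f) ↔ Dead j f := by
  have e1 : ∀ t, up i t = j + 2 ↔ t = j := fun t => up_eq_iff h
  have e2 : ∀ t, up i t = j + 2 + 1 ↔ t = j + 1 := fun t => by
    unfold up
    split_ifs <;> omega
  have e3 : cupF i f (j + 2) = up i (f j) := by
    rw [← cupF_up, (e1 j).2 rfl]
  have e4 : cupF i f (j + 2 + 1) = up i (f (j + 1)) := by
    rw [← cupF_up, (e2 (j + 1)).2 rfl]
  unfold Dead
  rw [e3, e4, e1, e2]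

/-! ### far contractions -/

lemma JJ {f : ℕ → ℕ} (hf : Inv f) {x y z w u : ℕ} (h1 : x ≠ y) (h2 : x ≠ z) (h3 : x ≠ w)
    (h4 : y ≠ z) (h5 : y ≠ w) (h6 : z ≠ w) (hx : u ≠ x) (hy : u ≠ y) (hz : u ≠ z) (hw : u ≠ w) :
    J x y (J z w f) u = J z w (J x y f) u := by
  have a1 := hf x
  have a2 := hf y
  have a3 := hf z
  have a4 := hf w
  have a5 := hf u
  unfold J
  grind

lemma deadJ {f : ℕ → ℕ} (hf : Inv f) {x y z w : ℕ} (h1 : x ≠ y) (h2 : x ≠ z) (h3 : x ≠ w)
    (h4 : y ≠ z) (h5 : y ≠ w) (h6 : z ≠ w)  :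
    ((f z = z ∧ f w = w) ∨ (J z w f x = x ∧ J z w f y = y)) →
    ((f x = x ∧ f y = y) ∨ (J x y f z = z ∧ J x y f w = w)) := by
  have a1 := hf x
  have a2 := hf y
  have a3 := hf z
  have a4 := hf w
  unfold J
  grind (splits := 20)

lemma J_congr {f g : ℕ → ℕ} {x y s : ℕ} (hs : f s = g s) (hx : f x = g x) (hy : f y = g y) :
    J x y f s = J x y g s := by
  unfold J
  rw [hs, hx, hy]

lemma J_cap {f : ℕ → ℕ} (hf : Inv f) {i j : ℕ} (h : i ≤ j) (s : ℕ) :
    up i (J j (j + 1) (capF i f) s) = J (j + 2) (j + 2 + 1) (J i (i + 1) f) (up i s) := by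
  have e1 : ∀ t, up i t = j + 2 ↔ t = j := fun t => up_eq_iff h
  have e2 : ∀ t, up i t = j + 2 + 1 ↔ t = j + 1 := fun t => by
    unfold up
    split_ifs <;> omega
  have e5 := up_capF hf i s
  have e3 : J i (i + 1) f (j + 2) = up i (capF i f j) := by
    rw [up_capF hf, (e1 j).2 rfl]
  have e4 : J i (i + 1) f (j + 2 + 1) = up i (capF i f (j + 1)) := by
    rw [up_capF hf, (e2 (j + 1)).2 rfl]
  generalize J i (i + 1) f = g at e3 e4 e5 ⊢
  unfold J
  simp only [← e5, e3, e4, e1, e2]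
  split_ifs <;> rfl

/-- far contraction of the generator -/
lemma cap_e {f : ℕ → ℕ} (hf : Inv f) {i j : ℕ} (h : i ≤ j) :
    capF i (eF (j + 2) f) = eF j (capF i f) := by
  funext s
  have e1 : ∀ t, up i t = j + 2 ↔ t = j := fun t => up_eq_iff h
  have e2 : ∀ t, up i t = j + 2 + 1 ↔ t = j + 1 := fun t => by
    unfold up
    split_ifs <;> omega
  have hE := inv_eF hf (j + 2)
  rw [← up_inj (i := i), up_capF hE]
  by_cases h1 : s = j
  · rw [h1, eF_i, (e1 j).2 rfl, (e2 (j + 1)).2 rfl]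
    unfold J
    rw [eF_i, if_neg (by omega), if_neg (by omega)]
  by_cases h2 : s = j + 1
  · rw [h2, eF_i1, (e2 (j + 1)).2 rfl, (e1 j).2 rfl]
    unfold J
    rw [eF_i1, if_neg (by omega), if_neg (by omega)]
  have h3 : up i s ≠ j + 2 := fun h => h1 ((e1 s).1 h)
  have h4 : up i s ≠ j + 2 + 1 := fun h => h2 ((e2 s).1 h)
  rw [eF_other _ h1 h2, J_cap hf h, ← JJ hf (by omega) (by omega) (by omega) (by omega) (by omega)
    (by omega) (up_ne i s) (up_ne' i s) h3 h4]
  exact J_congr (eF_other _ h3 h4) (eF_other _ (by omega) (by omega)) (eF_other _ (by omega) (by omega))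

lemma dead_iff_J {f : ℕ → ℕ} (hf : Inv f) {i j : ℕ} (h : i ≤ j) : Dead j (capF i f) ↔
    J i (i + 1) f (j + 2) = j + 2 ∧ J i (i + 1) f (j + 2 + 1) = j + 2 + 1 := by
  have e1 : up i j = j + 2 := (up_eq_iff h).2 rfl
  have e2 : up i (j + 1) = j + 2 + 1 := by
    unfold up
    split_ifs <;> omega
  unfold Dead
  rw [← up_inj (i := i), up_capF hf, e1, ← up_inj (i := i) (s := capF i f (j + 1)), up_capF hf, e2]

lemma dead_e {f : ℕ → ℕ} {i j : ℕ} (h : i ≤ j) : Dead i (eF (j + 2) f) ↔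
    J (j + 2) (j + 2 + 1) f i = i ∧ J (j + 2) (j + 2 + 1) f (i + 1) = i + 1 := by
  unfold Dead
  rw [eF_other _ (by omega) (by omega), eF_other _ (by omega) (by omega)]

lemma dead_far {f : ℕ → ℕ} (hf : Inv f) {i j : ℕ} (h : i ≤ j) :
    (Dead (j + 2) f ∨ Dead i (eF (j + 2) f)) ↔ (Dead i f ∨ Dead j (capF i f)) := by
  rw [dead_e h, dead_iff_J hf h]
  unfold Dead
  constructor
  · exact deadJ hf (by omega) (by omega) (by omega) (by omega) (by omega) (by omega)
  · exact deadJ hf (by omega) (by omega) (by omega) (by omega) (by omega) (by omega)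

/-! ### more relations between cups and caps -/

lemma cup_cup {f : ℕ → ℕ} {i j : ℕ} (h : i ≤ j) : cupF i (cupF j f) = cupF (j + 2) (cupF i f) := by
  have hi : up (j + 2) i = i := up_lt (by omega)
  have hi1 : up (j + 2) (i + 1) = i + 1 := up_lt (by omega)
  have hj : up i j = j + 2 := (up_eq_iff h).2 rfl
  have hj1 : up i (j + 1) = j + 2 + 1 := by
    unfold up
    split_ifs <;> omega
  have a1 := cupF_up (j + 2) (cupF i f) i
  have a2 := cupF_up (j + 2) (cupF i f) (i + 1)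
  rw [hi, cupF_i, hi1] at a1
  rw [hi1, cupF_i1, hi] at a2
  funext s
  rcases up_cases i s with rfl | rfl | ⟨t, rfl⟩
  · rw [cupF_i, a1]
  · rw [cupF_i1, a2]
  · rw [cupF_up]
    rcases up_cases j t with rfl | rfl | ⟨u, rfl⟩
    · rw [cupF_i, hj, cupF_i, hj1]
    · rw [cupF_i1, hj1, cupF_i1, hj]
    · rw [cupF_up, up_up h, up_up h, cupF_up, cupF_up]

lemma cap_cup_lt {f : ℕ → ℕ} (hf : Inv f) {i j : ℕ} (h : i ≤ j) :
    capF (j + 2) (cupF i f) = cupF i (capF j f) := by
  have h1 := cup_cap (inv_cupF hf i) (j + 2)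
  rw [e_cup h, ← cup_cap hf, cup_cup h] at h1
  have h2 := congrArg (capF (j + 2)) h1
  rwa [cap_cup, cap_cup] at h2

lemma J_cup' {f : ℕ → ℕ} {i m : ℕ} (h : i + 2 ≤ m) (u : ℕ) :
    J i (i + 1) (cupF m f) (up m u) = up m (J i (i + 1) f u) := by
  have e1 : ∀ t, up m t = i ↔ t = i := fun t => by
    unfold up
    split_ifs <;> omega
  have e2 : ∀ t, up m t = i + 1 ↔ t = i + 1 := fun t => by
    unfold up
    split_ifs <;> omega
  have e3 : cupF m f i = up m (f i) := by
    have := cupF_up m f i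
    rwa [up_lt (by omega)] at this
  have e4 : cupF m f (i + 1) = up m (f (i + 1)) := by
    have := cupF_up m f (i + 1)
    rwa [up_lt (by omega)] at this
  unfold J
  simp only [cupF_up, e3, e4, e1, e2]
  split_ifs <;> rfl

lemma cap_cup_gt {f : ℕ → ℕ} (hf : Inv f) {i j : ℕ} (h : i ≤ j) :
    capF i (cupF (j + 2) f) = cupF j (capF i f) := by
  have hj : up i j = j + 2 := (up_eq_iff h).2 rfl
  have hj1 : up i (j + 1) = j + 2 + 1 := by
    unfold up
    split_ifs <;> omega
  funext s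
  rw [← up_inj (i := i), up_capF (inv_cupF hf _)]
  rcases up_cases j s with rfl | rfl | ⟨t, rfl⟩
  · rw [cupF_i, hj, hj1]
    unfold J
    rw [cupF_i, if_neg (by omega), if_neg (by omega)]
  · rw [cupF_i1, hj1, hj]
    unfold J
    rw [cupF_i1, if_neg (by omega), if_neg (by omega)]
  · rw [cupF_up, up_up h, J_cup' (by omega), up_up h, up_capF hf]

lemma dead_cup_gt {f : ℕ → ℕ} {i j : ℕ} (h : i ≤ j) : Dead i (cupF (j + 2) f) ↔ Dead i f := by
  have e3 : cupF (j + 2) f i = up (j + 2) (f i) := by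
    have := cupF_up (j + 2) f i
    rwa [up_lt (by omega)] at this
  have e4 : cupF (j + 2) f (i + 1) = up (j + 2) (f (i + 1)) := by
    have := cupF_up (j + 2) f (i + 1)
    rwa [up_lt (by omega)] at this
  have e1 : ∀ t, up (j + 2) t = i ↔ t = i := fun t => by
    unfold up
    split_ifs <;> omega
  have e2 : ∀ t, up (j + 2) t = i + 1 ↔ t = i + 1 := fun t => by
    unfold up
    split_ifs <;> omega
  unfold Dead
  rw [e3, e4, e1, e2]

/-! ### the type of patterns -/

/-- link patterns on infinitely many strands, fixed points are the defects -/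
structure Pat : Type where
  /-- the partner function -/
  fn : ℕ → ℕ
  inv : ∀ s, fn (fn s) = s

noncomputable instance : DecidableEq Pat := Classical.decEq _

namespace Pat

lemma ext_fn {f g : Pat} (h : f.fn = g.fn) : f = g := by
  cases f
  cases g
  cases h
  rfl

/-- insert the arc `(i, i+1)` -/
def c (i : ℕ) (f : Pat) : Pat := ⟨cupF i f.fn, inv_cupF f.inv i⟩

/-- the contraction of the strands `i`, `i+1`, when they are not both defects -/
def cap (i : ℕ) (f : Pat) : Pat := ⟨capF i f.fn, inv_capF f.inv i⟩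

/-- contract the strands `i`, `i+1` -/
def k (i : ℕ) (f : Pat) : Option Pat := if Dead i f.fn then none else some (cap i f)

/-- no arcs -/
def vac : Pat := ⟨id, fun _ => rfl⟩

@[simp] lemma fn_c (i : ℕ) (f : Pat) : (c i f).fn = cupF i f.fn := rfl

@[simp] lemma fn_cap (i : ℕ) (f : Pat) : (cap i f).fn = capF i f.fn := rfl

@[simp] lemma fn_vac : vac.fn = id := rfl

lemma k_dead {i : ℕ} {f : Pat} (h : Dead i f.fn) : k i f = none := if_pos h

lemma k_alive {i : ℕ} {f : Pat} (h : ¬ Dead i f.fn) : k i f = some (cap i f) := if_neg h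

lemma k_none {i : ℕ} {f : Pat} : k i f = none ↔ Dead i f.fn := by
  constructor
  · intro h
    by_contra hcon
    rw [k_alive hcon] at h
    cases h
  · exact k_dead

lemma k_some {i : ℕ} {f g : Pat} : k i f = some g ↔ ¬ Dead i f.fn ∧ g.fn = capF i f.fn := by
  constructor
  · intro h
    have h1 : ¬ Dead i f.fn := by
      intro h1
      rw [k_dead h1] at h
      cases h
    refine ⟨h1, ?_⟩
    rw [k_alive h1, Option.some.injEq] at h
    rw [← h, fn_cap]
  · rintro ⟨h1, h2⟩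
    rw [k_alive h1, Option.some.injEq]
    exact ext_fn h2.symm

theorem kc (i : ℕ) (f : Pat) : k i (c i f) = some f :=
  k_some.2 ⟨not_dead_kc i f.fn, (cap_cup i).symm⟩

theorem kcr (i : ℕ) (f : Pat) : k i (c (i + 1) f) = some f :=
  k_some.2 ⟨not_dead_kcr i f.fn, (cap_cupr f.inv i).symm⟩

theorem kcl (i : ℕ) (f : Pat) : k (i + 1) (c i f) = some f :=
  k_some.2 ⟨not_dead_kcl i f.fn, (cap_cupl f.inv i).symm⟩

/-- cups commute -/
theorem cc {i j : ℕ} (h : i ≤ j) (f : Pat) : c i (c j f) = c (j + 2) (c i f) := ext_fn (cup_cup h)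

/-- a cap to the right of a cup -/
theorem k_c_lt {i j : ℕ} (h : i ≤ j) (f : Pat) : k (j + 2) (c i f) = (k j f).map (c i) := by
  by_cases hd : Dead j f.fn
  · rw [k_dead hd, k_dead ((dead_cup h).2 hd)]
    rfl
  · rw [k_alive hd]
    exact k_some.2 ⟨fun h1 => hd ((dead_cup h).1 h1), (cap_cup_lt f.inv h).symm⟩

/-- a cap to the left of a cup -/
theorem k_c_gt {i j : ℕ} (h : i ≤ j) (f : Pat) : k i (c (j + 2) f) = (k i f).map (c j) := by
  by_cases hd : Dead i f.fn
  · rw [k_dead hd, k_dead ((dead_cup_gt h).2 hd)]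
    rfl
  · rw [k_alive hd]
    exact k_some.2 ⟨fun h1 => hd ((dead_cup_gt h).1 h1), (cap_cup_gt f.inv h).symm⟩

theorem sc (i j : ℕ) (h : i ≤ j) (f : Pat) :
    (k (j + 2) (c i f)).map (c (j + 2)) = (k j f).map (fun g => c i (c j g)) := by
  rw [k_c_lt h, Option.map_map]
  congr 1
  funext g
  exact (cc h g).symm

theorem sk (i j : ℕ) (h : i ≤ j) (f : Pat) :
    (k (j + 2) f).bind (fun g => k i (c (j + 2) g)) = (k i f).bind (fun g => (k j g).map (c j)) := by
  have hd := dead_far f.inv h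
  by_cases h1 : Dead (j + 2) f.fn ∨ Dead i (eF (j + 2) f.fn)
  · have h2 := hd.1 h1
    have e1 : (k (j + 2) f).bind (fun g => k i (c (j + 2) g)) = none := by
      by_cases h3 : Dead (j + 2) f.fn
      · rw [k_dead h3]; rfl
      · rw [k_alive h3]
        have h4 := h1.resolve_left h3
        refine k_dead ?_
        rwa [fn_c, fn_cap, cup_cap f.inv]
    have e2 : (k i f).bind (fun g => (k j g).map (c j)) = none := by
      by_cases h3 : Dead i f.fn
      · rw [k_dead h3]; rfl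
      · rw [k_alive h3]
        have h4 := h2.resolve_left h3
        show (k j _).map (c j) = none
        rw [k_dead h4]
        rfl
    rw [e1, e2]
  · have h2 : ¬ (Dead i f.fn ∨ Dead j (capF i f.fn)) := fun h3 => h1 (hd.2 h3)
    rw [not_or] at h1 h2
    rw [k_alive h1.1, k_alive h2.1]
    have e1 : k i (c (j + 2) (cap (j + 2) f)) = some (c j (cap j (cap i f))) := by
      refine k_some.2 ⟨?_, ?_⟩
      · rw [fn_c, fn_cap, cup_cap f.inv]
        exact h1.2
      · rw [fn_c, fn_c, fn_cap, fn_cap, fn_cap, cup_cap f.inv, cap_e f.inv h,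
          cup_cap (inv_capF f.inv i)]
    have e2 : k j (cap i f) = some (cap j (cap i f)) := k_some.2 ⟨h2.2, rfl⟩
    show k i (c (j + 2) _) = (k j _).map (c j)
    rw [e1, e2]
    rfl

/-! ### the planar patterns with `l` defects on `N` strands -/

/-- generated by cups -/
inductive Gn (l : ℕ) : ℕ → Pat → Prop
  | base : Gn l l Pat.vac
  | cup {N i : ℕ} {f : Pat} (hf : Gn l N f) (hi : i ≤ N) : Gn l (N + 2) (c i f)

theorem Gn.le {l N : ℕ} {f : Pat} (h : Gn l N f) : l ≤ N := by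
  induction h with
  | base => exact le_rfl
  | cup _ _ ih => omega

theorem Gn.cases' {l N : ℕ} {f : Pat} (h : Gn l N f) : (N = l ∧ f = vac) ∨
    ∃ M g i, N = M + 2 ∧ i ≤ M ∧ Gn l M g ∧ f = c i g := by
  cases h with
  | base => exact Or.inl ⟨rfl, rfl⟩
  | @cup N i f hf hi => exact Or.inr ⟨N, f, i, rfl, hi, hf, rfl⟩

theorem gn_finite (l N : ℕ) : {f | Gn l N f}.Finite := by
  induction N using Nat.strong_induction_on with
  | _ N ih =>
    have hsub : {f | Gn l N f} ⊆ {vac} ∪ ⋃ i ∈ Set.Iic (N - 2), c i '' {f | 2 ≤ N ∧ Gn l (N - 2) f} := by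
      intro f hf
      rcases Gn.cases' hf with ⟨_, h2⟩ | ⟨M, g, i, h1, h2, h3, h4⟩
      · exact Or.inl h2
      · right
        rw [Set.mem_iUnion₂]
        have e : N - 2 = M := by omega
        refine ⟨i, by rw [e]; exact h2, g, ⟨by omega, by rw [e]; exact h3⟩, h4.symm⟩
    refine Set.Finite.subset ?_ hsub
    refine (Set.finite_singleton _).union ((Set.finite_Iic _).biUnion fun i _ => Set.Finite.image _ ?_)
    by_cases h2 : 2 ≤ N
    · exact (ih (N - 2) (by omega)).subset (fun f hf => hf.2)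
    · refine Set.Finite.subset Set.finite_empty ?_
      rintro f ⟨h3, _⟩
      exact absurd h3 h2

/-- the patterns on `N` strands with `l` defects -/
noncomputable def PN (N l : ℕ) : Finset Pat := (gn_finite l N).toFinset

theorem mem_PN {N l : ℕ} {f : Pat} : f ∈ PN N l ↔ Gn l N f := by
  unfold PN
  rw [Set.Finite.mem_toFinset]
  rfl

theorem PNc {N l i : ℕ} {f : Pat} (h : f ∈ PN N l) (hi : i ≤ N) : c i f ∈ PN (N + 2) l :=
  mem_PN.2 (Gn.cup (mem_PN.1 h) hi)

theorem k_vac (i : ℕ) : k i vac = none := k_dead ⟨rfl, rfl⟩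

theorem Gn.k {l : ℕ} : ∀ {N : ℕ} {f : Pat}, Gn l N f → ∀ {M : ℕ}, N = M + 2 → ∀ {i : ℕ}, i ≤ M →
    ∀ {g : Pat}, k i f = some g → Gn l M g := by
  intro N f hf
  induction hf with
  | base =>
    intro M _ i _ g hg
    rw [k_vac] at hg
    cases hg
  | @cup N j f hf hj ih =>
    intro M hM i hi g hg
    have hNM : N = M := by omega
    subst hNM
    rcases Nat.lt_trichotomy i j with h1 | h1 | h1
    · rcases Nat.lt_or_ge (i + 1) j with h2 | h2
      · -- far left
        obtain ⟨j', rfl⟩ : ∃ j', j = j' + 2 := ⟨j - 2, by omega⟩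
        rw [k_c_gt (by omega)] at hg
        obtain ⟨g', hg1, hg2⟩ := Option.map_eq_some_iff.1 hg
        obtain ⟨N', rfl⟩ : ∃ N', N = N' + 2 := ⟨N - 2, by omega⟩
        rw [← hg2]
        exact Gn.cup (ih rfl (by omega) hg1) (by omega)
      · have : j = i + 1 := by omega
        subst this
        rw [kcr, Option.some.injEq] at hg
        rw [← hg]
        exact hf
    · subst h1
      rw [kc, Option.some.injEq] at hg
      rw [← hg]
      exact hf
    · rcases Nat.lt_or_ge (j + 1) i with h2 | h2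
      · obtain ⟨i', rfl⟩ : ∃ i', i = i' + 2 := ⟨i - 2, by omega⟩
        rw [k_c_lt (by omega)] at hg
        obtain ⟨g', hg1, hg2⟩ := Option.map_eq_some_iff.1 hg
        obtain ⟨N', rfl⟩ : ∃ N', N = N' + 2 := ⟨N - 2, by omega⟩
        rw [← hg2]
        exact Gn.cup (ih rfl (by omega) hg1) (by omega)
      · have : i = j + 1 := by omega
        subst this
        rw [kcl, Option.some.injEq] at hg
        rw [← hg]
        exact hf

theorem PNk {N l i : ℕ} {f g : Pat} (h : f ∈ PN (N + 2) l) (hi : i ≤ N) (hk : k i f = some g) :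
    g ∈ PN N l := mem_PN.2 (Gn.k (mem_PN.1 h) rfl hi hk)

theorem PNind {N l : ℕ} {f : Pat} (h : f ∈ PN N l) : (N = l ∧ f = vac ∧ ∀ i, k i f = none) ∨
    ∃ M g i, N = M + 2 ∧ i ≤ M ∧ g ∈ PN M l ∧ f = c i g := by
  rcases (mem_PN.1 h).cases' with ⟨h1, h2⟩ | ⟨M, g, i, h1, h2, h3, h4⟩
  · exact Or.inl ⟨h1, h2, fun i => by rw [h2, k_vac]⟩
  · exact Or.inr ⟨M, g, i, h1, h2, mem_PN.2 h3, h4⟩

end Pat

end RectAlg
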