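import Pool.Agent.Rect.Alg.Lin
import Pool.Agent.Rect.Alg.Pat

/-!
The link patterns `RectAlg.Pat` are an instance of helper28's `PatSys`.
-/

set_option autoImplicit false

namespace RectAlg
open Rect.Alg

/-- **the system of link patterns** -/
noncomputable def patSys : PatSys Pat where
  c := Pat.c
  k := Pat.k
  kc := Pat.kc
  kcr := Pat.kcr
  kcl := Pat.kcl
  sc i j f h := Pat.sc i j h f
  sk i j f h := Pat.sk i j h f
  PN := Pat.PN
  PNc _ _ _ _ h hi := Pat.PNc h hi
  PNk _ _ _ _ _ h hi hk := Pat.PNk h hi hk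
  Om _ := Pat.vac
  Om_mem _ := Pat.mem_PN.2 Pat.Gn.base
  kOm _ i _ := Pat.k_vac i
  PNind N l f h := by
    rcases Pat.PNind h with ⟨h1, h2, _⟩ | h1
    · exact Or.inl ⟨h1, h2⟩
    · exact Or.inr h1

end RectAlg
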