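import Pool.Agent.Rect.Alg.Pat

/-!
# Characterisation of the generated patterns

`Gn l N f` holds if and only if `f` is the identity from `N` on, non crossing (no defect under an arc), and has exactly
`l` defects below `N`.  Consequence: the alternating sum `sum_j (-1)^j card (PN N (2 j))` is `1` for `N = 0`
and `0` otherwise.
-/

set_option autoImplicit false

namespace RectAlg
open Finset

/-- non crossing involutions without a defect under an arc, on `N` strands -/
structure Pl (N : ℕ) (f : ℕ → ℕ) : Prop where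
  inv : Inv f
  sm : ∀ s, N ≤ s → f s = s
  nc : ∀ s t, s < t → t < f s → s < f t ∧ f t < f s ∧ f t ≠ t

/-- the number of defects -/
def dfc (N : ℕ) (f : ℕ → ℕ) : ℕ := ((range N).filter fun s => f s = s).card

theorem up_lt_up {i s t : ℕ} : up i s < up i t ↔ s < t := by
  unfold up
  split_ifs <;> omega

theorem dfc_cup {N i : ℕ} (f : ℕ → ℕ) (hi : i ≤ N) : dfc (N + 2) (cupF i f) = dfc N f := by
  unfold dfc
  have h : (range (N + 2)).filter (fun s => cupF i f s = s) =
      ((range N).filter fun s => f s = s).image (up i) := by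
    ext s
    rw [mem_filter, mem_image, mem_range]
    constructor
    · rintro ⟨h1, h2⟩
      rcases up_cases i s with rfl | rfl | ⟨t, rfl⟩
      · rw [cupF_i] at h2
        omega
      · rw [cupF_i1] at h2
        omega
      · rw [cupF_up, up_inj] at h2
        refine ⟨t, ?_, rfl⟩
        rw [mem_filter, mem_range]
        refine ⟨?_, h2⟩
        unfold up at h1
        split_ifs at h1 <;> omega
    · rintro ⟨t, h1, rfl⟩
      rw [mem_filter, mem_range] at h1
      refine ⟨?_, by rw [cupF_up, h1.2]⟩
      unfold up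
      split_ifs <;> omega
  rw [h, card_image_of_injective _ fun a b h => up_inj.1 h]

theorem Pl.cup {N i : ℕ} {f : ℕ → ℕ} (h : Pl N f) (hi : i ≤ N) : Pl (N + 2) (cupF i f) where
  inv := inv_cupF h.inv i
  sm s hs := by
    rcases up_cases i s with rfl | rfl | ⟨t, rfl⟩
    · omega
    · omega
    · rw [cupF_up, h.sm t]
      unfold up at hs
      split_ifs at hs <;> omega
  nc s t hst htf := by
    rcases up_cases i s with rfl | rfl | ⟨s', rfl⟩
    · rw [cupF_i] at htf
      omega
    · rw [cupF_i1] at htf
      omega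
    · rw [cupF_up] at htf ⊢
      rcases up_cases i t with rfl | rfl | ⟨t', rfl⟩
      · rw [cupF_i]
        unfold up at *
        split_ifs at * <;> omega
      · rw [cupF_i1]
        unfold up at *
        split_ifs at * <;> omega
      · rw [up_lt_up] at hst htf
        rw [cupF_up, up_lt_up, up_lt_up, Ne, up_inj]
        exact h.nc s' t' hst htf

theorem Pl.of_cup {N i : ℕ} {f : ℕ → ℕ} (h : Pl (N + 2) (cupF i f)) (hi : i ≤ N) : Pl N f where
  inv s := by
    rw [← up_inj (i := i), ← cupF_up, ← cupF_up, h.inv]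
  sm s hs := by
    rw [← up_inj (i := i), ← cupF_up]
    apply h.sm
    unfold up
    split_ifs <;> omega
  nc s t hst htf := by
    have := h.nc (up i s) (up i t) (up_lt_up.2 hst) (by rw [cupF_up]; exact up_lt_up.2 htf)
    rwa [cupF_up, cupF_up, up_lt_up, up_lt_up, Ne, up_inj] at this

theorem pl_id (N : ℕ) : Pl N id where
  inv _ := rfl
  sm _ _ := rfl
  nc s t h1 h2 := by
    simp only [id] at h2
    omega

theorem dfc_id (N : ℕ) : dfc N id = N := by
  unfold dfc
  simp

/-- there is a short arc -/
theorem Pl.short {N : ℕ} {f : ℕ → ℕ} (h : Pl N f) : ∀ (d s : ℕ), f s = s + d + 1 → ∃ i, f i = i + 1 := by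
  intro d
  induction d using Nat.strong_induction_on with
  | _ d ih =>
    intro s hs
    rcases Nat.eq_zero_or_pos d with rfl | hd
    · exact ⟨s, hs⟩
    · obtain ⟨h1, h2, h3⟩ := h.nc s (s + 1) (by omega) (by omega)
      rcases Nat.lt_or_ge (s + 1) (f (s + 1)) with h4 | h4
      · exact ih (f (s + 1) - (s + 1) - 1) (by omega) (s + 1) (by omega)
      · have h5 := h.inv (s + 1)
        exact ih (s + 1 - f (s + 1) - 1) (by omega) (f (s + 1)) (by omega)

theorem eF_short {f : ℕ → ℕ} (hf : Inv f) {i : ℕ} (h : f i = i + 1) : eF i f = f := by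
  have h' : f (i + 1) = i := by
    have := hf i
    rwa [h] at this
  funext s
  unfold eF J
  have a1 := hf s
  grind

theorem cap_short {f : ℕ → ℕ} (hf : Inv f) {i : ℕ} (h : f i = i + 1) : cupF i (capF i f) = f := by
  rw [cup_cap hf, eF_short hf h]

namespace Pat

theorem Gn.pl {l N : ℕ} {f : Pat} (h : Gn l N f) : Pl N f.fn ∧ dfc N f.fn = l := by
  induction h with
  | base => exact ⟨pl_id l, dfc_id l⟩
  | @cup N i f hf hi ih => exact ⟨ih.1.cup hi, by rw [fn_c, dfc_cup _ hi, ih.2]⟩

theorem Gn.of_pl {l : ℕ} : ∀ {N : ℕ} {f : Pat}, Pl N f.fn → dfc N f.fn = l → Gn l N f := by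
  intro N
  induction N using Nat.strong_induction_on with
  | _ N ih =>
    intro f h1 h2
    by_cases h3 : ∀ s, f.fn s = s
    · have h4 : f = vac := ext_fn (funext h3)
      subst h4
      have h5 : dfc N vac.fn = N := dfc_id N
      rw [h5] at h2
      subst h2
      exact Gn.base
    · push Not at h3
      obtain ⟨s, hs⟩ := h3
      obtain ⟨i, hi⟩ : ∃ i, f.fn i = i + 1 := by
        rcases Nat.lt_or_ge s (f.fn s) with h4 | h4
        · exact h1.short (f.fn s - s - 1) s (by omega)
        · have h5 := f.inv s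
          exact h1.short (s - f.fn s - 1) (f.fn s) (by omega)
      have hiN : i + 1 < N := by
        by_contra hcon
        have h4 := h1.sm (i + 1) (by omega)
        have h5 := f.inv i
        rw [hi] at h5
        omega
      obtain ⟨N', rfl⟩ : ∃ N', N = N' + 2 := ⟨N - 2, by omega⟩
      have h5 : f = c i (cap i f) := ext_fn (by rw [fn_c, fn_cap, cap_short f.inv hi])
      rw [h5] at h1 h2 ⊢
      have hi' : i ≤ N' := by omega
      refine Gn.cup (ih N' (by omega) (h1.of_cup hi') ?_) hi'
      rw [← h2, fn_c, dfc_cup _ hi']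

/-- **the generated patterns are the planar patterns with `l` defects** -/
theorem gn_iff {l N : ℕ} {f : Pat} : Gn l N f ↔ Pl N f.fn ∧ dfc N f.fn = l :=
  ⟨Gn.pl, fun h => Gn.of_pl h.1 h.2⟩

theorem mem_PN' {l N : ℕ} {f : Pat} : f ∈ PN N l ↔ Pl N f.fn ∧ dfc N f.fn = l := by
  rw [mem_PN, gn_iff]

end Pat

end RectAlg
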