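import Pool.Agent.Helper78.DR.Braid

/-!
# Link patterns as a planar tower (abstract form) and the standard modules `W N l`

`PatSys P`: patterns with cup insertions `c i` and cap contractions `k i` (`none` when two defects are
contracted), and the finite sets `PN N l` of patterns with `N` strands and `l` defects.
`S.tower K`: the planar tower with loop weight one on `P →₀ K`, for every field `K`.
`S.W K N l`: the span of `PN N l`; `S.DW K N l p`: the double row matrix on it.
-/

set_option autoImplicit false

namespace Rect.Alg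
open Module Finset Pool.Agent.Helper9.DR

/-- a system of link patterns (loop weight one, contraction of two defects gives `none`) -/
structure PatSys (P : Type*) where
  c : ℕ → P → P
  k : ℕ → P → Option P
  kc : ∀ i f, k i (c i f) = some f
  kcr : ∀ i f, k i (c (i + 1) f) = some f
  kcl : ∀ i f, k (i + 1) (c i f) = some f
  sc : ∀ i j f, i ≤ j →
    (k (j + 2) (c i f)).map (c (j + 2)) = (k j f).map (fun g => c i (c j g))
  sk : ∀ i j f, i ≤ j →
    (k (j + 2) f).bind (fun g => k i (c (j + 2) g)) = (k i f).bind (fun g => (k j g).map (c j))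
  PN : ℕ → ℕ → Finset P
  PNc : ∀ N l i f, f ∈ PN N l → i ≤ N → c i f ∈ PN (N + 2) l
  PNk : ∀ N l i f g, f ∈ PN (N + 2) l → i ≤ N → k i f = some g → g ∈ PN N l
  /-- the pattern without arcs -/
  Om : ℕ → P
  Om_mem : ∀ l, Om l ∈ PN l l
  kOm : ∀ l i, i + 2 ≤ l → k i (Om l) = none
  PNind : ∀ N l f, f ∈ PN N l → (N = l ∧ f = Om l) ∨
    ∃ M g i, N = M + 2 ∧ i ≤ M ∧ g ∈ PN M l ∧ f = c i g

section lin
variable {P : Type*} (K : Type*) [Field K]

/-- a pattern or zero -/
noncomputable def toV (o : Option P) : P →₀ K := o.elim 0 fun g => Finsupp.single g 1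

@[simp] theorem toV_none : toV K (none : Option P) = 0 := rfl
@[simp] theorem toV_some (g : P) : toV K (some g) = Finsupp.single g 1 := rfl

/-- linear extension of a partial map -/
noncomputable def lin (m : P → Option P) : End K (P →₀ K) :=
  Finsupp.linearCombination K fun f => toV K (m f)

theorem lin_single (m : P → Option P) (f : P) (a : K) :
    lin K m (Finsupp.single f a) = a • toV K (m f) := by
  rw [lin, Finsupp.linearCombination_single]

@[simp] theorem lin_single_one (m : P → Option P) (f : P) :
    lin K m (Finsupp.single f 1) = toV K (m f) := by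
  rw [lin_single, one_smul]

theorem lin_toV (m : P → Option P) (o : Option P) : lin K m (toV K o) = toV K (o.bind m) := by
  cases o with
  | none => simp
  | some g => simp

theorem lin_mul (m m' : P → Option P) : lin K m * lin K m' = lin K fun f => (m' f).bind m := by
  refine Finsupp.lhom_ext' fun f => LinearMap.ext_ring ?_
  simp only [LinearMap.comp_apply, Finsupp.lsingle_apply, Module.End.mul_apply, lin_single_one,
    lin_toV]

theorem lin_some : lin K (some : P → Option P) = 1 := by
  refine Finsupp.lhom_ext' fun f => LinearMap.ext_ring ?_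
  simp

theorem lin_congr {m m' : P → Option P} (h : ∀ f, m f = m' f) : lin K m = lin K m' := by
  rw [funext h]

/-- the sum of the coefficients -/
noncomputable def tot : (P →₀ K) →ₗ[K] K := Finsupp.linearCombination K fun _ => 1

theorem tot_single (f : P) (a : K) : tot K (Finsupp.single f a) = a := by
  rw [tot, Finsupp.linearCombination_single, smul_eq_mul, mul_one]

theorem tot_apply (v : P →₀ K) : tot K v = v.sum fun _ a => a := by
  rw [tot, Finsupp.linearCombination_apply]
  simp

end lin

namespace PatSys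
variable {P : Type*} (S : PatSys P)

/-- the generator as a partial map -/
def em (i : ℕ) (f : P) : Option P := (S.k i f).map (S.c i)

theorem em_eq (i : ℕ) (f : P) : S.em i f = (S.k i f).bind fun g => some (S.c i g) := by
  rw [em]; cases S.k i f <;> rfl

variable (K : Type*) [Field K]

/-- the tower of the link patterns -/
noncomputable def tower : Tower K (P →₀ K) where
  c i := lin K fun f => some (S.c i f)
  k i := lin K (S.k i)
  kc i := by
    rw [lin_mul, ← lin_some]
    exact lin_congr K fun f => by rw [Option.bind_some, S.kc]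
  kcr i := by
    rw [lin_mul, ← lin_some]
    exact lin_congr K fun f => by rw [Option.bind_some, S.kcr]
  kcl i := by
    rw [lin_mul, ← lin_some]
    exact lin_congr K fun f => by rw [Option.bind_some, S.kcl]
  sc i j h := by
    rw [lin_mul, lin_mul, lin_mul, lin_mul]
    refine lin_congr K fun f => ?_
    have := S.sc i j f h
    rw [Option.bind_some]
    rw [← em, em_eq] at this
    rw [this]
    cases S.k j f <;> rfl
  sk i j h := by
    rw [lin_mul, lin_mul, lin_mul, lin_mul]
    refine lin_congr K fun f => ?_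
    have := S.sk i j f h
    have e1 : ((S.k (j + 2) f).bind fun f => some (S.c (j + 2) f)).bind (S.k i) =
        (S.k (j + 2) f).bind fun g => S.k i (S.c (j + 2) g) := by
      cases S.k (j + 2) f <;> rfl
    rw [e1, this]
    congr 1
    funext g
    cases S.k j g <;> rfl

theorem tower_c (i : ℕ) (f : P) (a : K) :
    (S.tower K).c i (Finsupp.single f a) = Finsupp.single (S.c i f) a := by
  change lin K (fun f => some (S.c i f)) _ = _
  rw [lin_single, toV_some, Finsupp.smul_single, smul_eq_mul, mul_one]

theorem tower_k (i : ℕ) (f : P) (a : K) :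
    (S.tower K).k i (Finsupp.single f a) = a • toV K (S.k i f) := lin_single K _ f a

theorem tower_c_lin (i : ℕ) : (S.tower K).c i = lin K fun f => some (S.c i f) := rfl

theorem tower_k_lin (i : ℕ) : (S.tower K).k i = lin K (S.k i) := rfl

theorem tower_e_lin (i : ℕ) : (S.tower K).e i = lin K (S.em i) := by
  rw [Tower.e_def, tower_c_lin, tower_k_lin, lin_mul]
  exact lin_congr K fun f => (S.em_eq i f).symm

/-! ### The standard modules -/

/-- the standard module: span of the patterns with `N` strands and `l` defects -/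
noncomputable def W (N l : ℕ) : Submodule K (P →₀ K) := Finsupp.supported K K (S.PN N l : Set P)

theorem mem_W {N l : ℕ} {v : P →₀ K} : v ∈ S.W K N l ↔ ∀ f, v f ≠ 0 → f ∈ S.PN N l := by
  rw [W, Finsupp.mem_supported']
  constructor
  · intro h f hf
    by_contra hc
    exact hf (h f (by simpa using hc))
  · intro h f hf
    by_contra hc
    exact hf (by simpa using h f hc)

theorem single_mem_W {N l : ℕ} {f : P} (h : f ∈ S.PN N l) (a : K) :
    Finsupp.single f a ∈ S.W K N l :=
  Finsupp.single_mem_supported K a (by simpa using h)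

theorem W_eq_span (N l : ℕ) : S.W K N l =
    Submodule.span K ((fun f => Finsupp.single f 1) '' (S.PN N l : Set P)) :=
  Finsupp.supported_eq_span_single K _

theorem toV_mem_W {N l : ℕ} {o : Option P} (h : ∀ g, o = some g → g ∈ S.PN N l) :
    toV K o ∈ S.W K N l := by
  cases o with
  | none => exact Submodule.zero_mem _
  | some g => exact S.single_mem_W K (h g rfl) 1

theorem lin_mem {N l N' l' : ℕ} {m : P → Option P}
    (h : ∀ f ∈ S.PN N l, ∀ g, m f = some g → g ∈ S.PN N' l') {v : P →₀ K}
    (hv : v ∈ S.W K N l) : lin K m v ∈ S.W K N' l' := by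
  rw [W_eq_span] at hv
  induction hv using Submodule.span_induction with
  | mem x hx =>
    obtain ⟨f, hf, rfl⟩ := hx
    dsimp only
    rw [lin_single_one]
    exact S.toV_mem_W K (h f hf)
  | zero => rw [map_zero]; exact Submodule.zero_mem _
  | add x y _ _ hx hy => rw [map_add]; exact Submodule.add_mem _ hx hy
  | smul a x _ hx => rw [map_smul]; exact Submodule.smul_mem _ _ hx

theorem c_mem {N l i : ℕ} (hi : i ≤ N) {v : P →₀ K} (hv : v ∈ S.W K N l) :
    (S.tower K).c i v ∈ S.W K (N + 2) l := by
  refine S.lin_mem K (fun f hf g hg => ?_) hv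
  obtain rfl := Option.some.inj hg
  exact S.PNc N l i f hf hi

theorem k_mem {N l i : ℕ} (hi : i ≤ N) {v : P →₀ K} (hv : v ∈ S.W K (N + 2) l) :
    (S.tower K).k i v ∈ S.W K N l :=
  S.lin_mem K (fun f hf g hg => S.PNk N l i f g hf hi hg) hv

theorem e_mem {N l i : ℕ} (hi : i + 2 ≤ N) {v : P →₀ K} (hv : v ∈ S.W K N l) :
    (S.tower K).e i v ∈ S.W K N l := by
  obtain ⟨M, rfl⟩ : ∃ M, N = M + 2 := ⟨N - 2, by omega⟩
  rw [Tower.e_def, Module.End.mul_apply]
  exact S.c_mem K (by omega) (S.k_mem K (by omega) hv)

theorem X_mem {N l i : ℕ} (hi : i + 2 ≤ N) (p : K) {v : P →₀ K} (hv : v ∈ S.W K N l) :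
    (S.tower K).X i p v ∈ S.W K N l := by
  rw [Tower.X_def, LinearMap.add_apply, LinearMap.smul_apply, LinearMap.smul_apply,
    Module.End.one_apply]
  exact Submodule.add_mem _ (Submodule.smul_mem _ _ hv) (Submodule.smul_mem _ _ (S.e_mem K hi hv))

variable {ι : Type*}

theorem A_mem {N l : ℕ} (α β : ι → K) (L : List ι) : ∀ {k : ℕ}, k + L.length + 1 ≤ N →
    ∀ {v : P →₀ K}, v ∈ S.W K N l → (S.tower K).A α β k L v ∈ S.W K N l := by
  induction L with
  | nil => intro k _ v hv; exact hv
  | cons j L ih =>
    intro k hk v hv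
    rw [List.length_cons] at hk
    rw [Tower.A_cons, Module.End.mul_apply, Module.End.mul_apply]
    exact S.X_mem K (by omega) _ (ih (by omega) (S.X_mem K (by omega) _ hv))

theorem D_mem {N l : ℕ} (α β : ι → K) (L : List ι) : ∀ {k : ℕ}, k + L.length ≤ N →
    ∀ {v : P →₀ K}, v ∈ S.W K N l → (S.tower K).D α β k L v ∈ S.W K N l := by
  induction L with
  | nil => intro k _ v hv; exact hv
  | cons j L ih =>
    intro k hk v hv
    rw [List.length_cons] at hk
    rw [Tower.D_cons, LinearMap.add_apply, LinearMap.smul_apply, LinearMap.smul_apply]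
    exact Submodule.add_mem _ (Submodule.smul_mem _ _ (S.A_mem K _ _ L (by omega) hv))
      (Submodule.smul_mem _ _ (ih (by omega) hv))

theorem Dh_mem (N l : ℕ) (p : K) {v : P →₀ K} (hv : v ∈ S.W K N l) :
    (S.tower K).Dh N 0 p v ∈ S.W K N l :=
  S.D_mem K _ _ _ (by simp) hv

instance (N l : ℕ) : FiniteDimensional K (S.W K N l) := by
  have : Set.Finite ((fun f => Finsupp.single f (1 : K)) '' (S.PN N l : Set P)) :=
    (S.PN N l).finite_toSet.image _
  rw [W_eq_span]
  exact FiniteDimensional.span_of_finite K this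

/-- the double row matrix on the standard module -/
noncomputable def DW (N l : ℕ) (p : K) : End K (S.W K N l) :=
  ((S.tower K).Dh N 0 p).restrict fun _ hv => S.Dh_mem K N l p hv

theorem DW_coe (N l : ℕ) (p : K) (v : S.W K N l) :
    ((S.DW K N l p v : S.W K N l) : P →₀ K) = (S.tower K).Dh N 0 p v := rfl

theorem DW_comm [Infinite K] (N l : ℕ) (p q : K) :
    S.DW K N l p * S.DW K N l q = S.DW K N l q * S.DW K N l p := by
  refine LinearMap.ext fun v => Subtype.ext ?_
  rw [Module.End.mul_apply, Module.End.mul_apply, DW_coe, DW_coe, DW_coe, DW_coe,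
    ← Module.End.mul_apply, Tower.Dh_comm, Module.End.mul_apply]

theorem DW_one (N l : ℕ) : S.DW K N l 1 = 1 := by
  refine LinearMap.ext fun v => Subtype.ext ?_
  rw [DW_coe, Tower.Dh_one]
  rfl

theorem DW_zero (N l : ℕ) : S.DW K N l 0 = 1 := by
  refine LinearMap.ext fun v => Subtype.ext ?_
  rw [DW_coe, Tower.Dh_zero]
  rfl

theorem DW_cross [Infinite K] (N l : ℕ) (p : K) : S.DW K N l (1 - p) = S.DW K N l p := by
  refine LinearMap.ext fun v => Subtype.ext ?_
  rw [DW_coe, DW_coe, Tower.Dh_cross]

/-- polynomial in `p` of degree at most `2 N` -/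
theorem DW_coeff (N l : ℕ) : ∃ M : ℕ → End K (S.W K N l), ∀ p,
    S.DW K N l p = ∑ i ∈ range (2 * N + 1), p ^ i • M i := by
  obtain ⟨M, hM⟩ := (S.tower K).Dh_coeff N 0
  obtain ⟨r, hr⟩ := LinearMap.exists_leftInverse_of_injective (K := K) (V := S.W K N l)
    (V' := P →₀ K) (S.W K N l).subtype (Submodule.ker_subtype (S.W K N l))
  refine ⟨fun i => r ∘ₗ (M i) ∘ₗ (S.W K N l).subtype, fun p => ?_⟩
  refine LinearMap.ext fun v => ?_
  have h1 : r ((S.tower K).Dh N 0 p v) = S.DW K N l p v :=
    LinearMap.congr_fun hr (S.DW K N l p v)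
  rw [← h1, hM]
  simp only [LinearMap.sum_apply, LinearMap.smul_apply, map_sum, map_smul, LinearMap.comp_apply]
  rfl

/-! ### The basis of patterns -/

/-- the basis of patterns -/
noncomputable def basis (N l : ℕ) : Basis (S.PN N l) K (S.W K N l) :=
  Basis.ofRepr (Finsupp.supportedEquivFinsupp (R := K) (M := K) (S.PN N l : Set P))

theorem basis_repr (N l : ℕ) (v : S.W K N l) (f : S.PN N l) :
    (S.basis K N l).repr v f = (v : P →₀ K) f := rfl

theorem basis_apply (N l : ℕ) (f : S.PN N l) :
    ((S.basis K N l f : S.W K N l) : P →₀ K) = Finsupp.single (f : P) 1 := by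
  classical
  have h1 : S.basis K N l f = ⟨Finsupp.single (f : P) 1, S.single_mem_W K f.2 1⟩ := by
    refine (S.basis K N l).repr.injective (Finsupp.ext fun g => ?_)
    rw [Basis.repr_self, basis_repr]
    simp only [Finsupp.single_apply, Subtype.ext_iff]
  rw [h1]

theorem finrank_W (N l : ℕ) : finrank K (S.W K N l) = (S.PN N l).card := by
  rw [Module.finrank_eq_card_basis (S.basis K N l), Fintype.card_coe]

/-! ### Generation by cups and the spectral family -/

/-- every pattern is generated from the defects by cups -/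
theorem gen (l : ℕ) : ∀ (N : ℕ) (f : P), f ∈ S.PN N l →
    DR.Braid.Gen (S.tower K) 0 l N (Finsupp.single f (1 : K)) := by
  intro N
  induction N using Nat.strong_induction_on with
  | _ N ih =>
    intro f hf
    rcases S.PNind N l f hf with ⟨rfl, rfl⟩ | ⟨M, g, i, rfl, hi, hg, rfl⟩
    · refine DR.Braid.Gen.base _ fun i _ hi => ?_
      rw [tower_e_lin, lin_single_one, em, S.kOm N i (by omega)]
      rfl
    · rw [← S.tower_c K i g 1]
      exact DR.Braid.Gen.cup M _ i (Nat.zero_le i) (by omega) (ih M (by omega) g hg)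

theorem W_le_gen (N l : ℕ) {v : P →₀ K} (hv : v ∈ S.W K N l) :
    v ∈ Submodule.span K {v | DR.Braid.Gen (S.tower K) 0 l N v} := by
  rw [W_eq_span] at hv
  refine Submodule.span_mono ?_ hv
  rintro _ ⟨f, hf, rfl⟩
  exact S.gen K l N f hf

/-- **the spectral family of the standard module** -/
theorem spec (N l : ℕ) : ∃ d : Fin (S.PN N l).card → Polynomial ℂ, (∀ i, DR.Sol N (d i)) ∧
      (∀ i, ∀ p : ℂ, p ^ 2 - p + 1 = 0 → (d i).eval p = if l % 3 = 2 then -2 else 1) ∧
      (∀ i, ∃ v : S.W ℂ N l, v ≠ 0 ∧ ∀ p, S.DW ℂ N l p v = (d i).eval p • v) ∧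
      ∀ w : List ℂ, LinearMap.trace ℂ (S.W ℂ N l) ((w.map (S.DW ℂ N l)).prod) =
        ∑ i, (w.map (fun p => (d i).eval p)).prod := by
  have := DR.spec_braid (S.tower ℂ) N 0 l (S.W ℂ N l).subtype (Submodule.subtype_injective _)
    (S.DW ℂ N l) (fun p u => rfl) (fun u => S.W_le_gen ℂ N l u.2)
  rwa [finrank_W] at this

end PatSys
end Rect.Alg
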