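import Pool.Agent.Rect.Alg.Lin

/-!
# Base change, positivity, domination and irreducibility on the standard modules
-/

set_option autoImplicit false

namespace Rect.Alg
open Module Finset Pool.Agent.Helper9.DR

/-! ### Base change -/

section bc
variable {P K K' : Type*} [Field K] [Field K'] (φ : K →+* K')

/-- extension of scalars on the coefficients -/
noncomputable def bc : (P →₀ K) →+ (P →₀ K') := Finsupp.mapRange.addMonoidHom φ.toAddMonoidHom

theorem bc_apply (v : P →₀ K) (f : P) : bc φ v f = φ (v f) := rfl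

theorem bc_single (f : P) (a : K) : bc φ (Finsupp.single f a) = Finsupp.single f (φ a) := by
  classical
  ext g
  rw [bc_apply, Finsupp.single_apply, Finsupp.single_apply]
  split_ifs
  · rfl
  · exact map_zero φ

theorem bc_smul (a : K) (v : P →₀ K) : bc φ (a • v) = φ a • bc φ v := by
  ext f
  rw [bc_apply, Finsupp.smul_apply, Finsupp.smul_apply, bc_apply, smul_eq_mul, smul_eq_mul, map_mul]

theorem bc_toV (o : Option P) : bc φ (toV K o) = toV K' o := by
  cases o with
  | none => exact map_zero _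
  | some g => rw [toV_some, toV_some, bc_single, map_one]

theorem bc_lin (m : P → Option P) (v : P →₀ K) : bc φ (lin K m v) = lin K' m (bc φ v) := by
  induction v using Finsupp.induction_linear with
  | zero => simp
  | add x y hx hy => rw [map_add, map_add, map_add, map_add, hx, hy]
  | single f a => rw [lin_single, bc_smul, bc_toV, bc_single, lin_single]

theorem bc_injective : Function.Injective (bc (P := P) φ) := by
  intro x y h
  ext f
  have := DFunLike.congr_fun h f
  rw [bc_apply, bc_apply] at this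
  exact φ.injective this

variable (S : PatSys P)

namespace PatSys

theorem bc_X (i : ℕ) (p : K) (v : P →₀ K) :
    bc φ ((S.tower K).X i p v) = (S.tower K').X i (φ p) (bc φ v) := by
  rw [Tower.X_def, Tower.X_def, tower_e_lin, tower_e_lin]
  simp only [LinearMap.add_apply, LinearMap.smul_apply, Module.End.one_apply]
  rw [map_add, bc_smul, bc_smul, bc_lin, map_sub, map_one]

variable {ι : Type*}

theorem bc_A (α β : ι → K) (L : List ι) : ∀ (k : ℕ) (v : P →₀ K),
    bc φ ((S.tower K).A α β k L v) =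
      (S.tower K').A (fun j => φ (α j)) (fun j => φ (β j)) k L (bc φ v) := by
  induction L with
  | nil => intro k v; rfl
  | cons j L ih =>
    intro k v
    rw [Tower.A_cons, Tower.A_cons]
    simp only [Module.End.mul_apply]
    rw [bc_X, ih, bc_X]

theorem bc_D (α β : ι → K) (L : List ι) : ∀ (k : ℕ) (v : P →₀ K),
    bc φ ((S.tower K).D α β k L v) =
      (S.tower K').D (fun j => φ (α j)) (fun j => φ (β j)) k L (bc φ v) := by
  induction L with
  | nil => intro k v; rfl
  | cons j L ih =>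
    intro k v
    rw [Tower.D_cons, Tower.D_cons]
    simp only [LinearMap.add_apply, LinearMap.smul_apply]
    rw [map_add, bc_smul, bc_smul, bc_A, ih]
    simp only [map_sub, map_mul, map_one]

/-- the double row matrix commutes with the extension of scalars -/
theorem bc_Dh (n k : ℕ) (p : K) (v : P →₀ K) :
    bc φ ((S.tower K).Dh n k p v) = (S.tower K').Dh n k (φ p) (bc φ v) :=
  S.bc_D φ _ _ _ k v

theorem bc_mem {N l : ℕ} {v : P →₀ K} (hv : v ∈ S.W K N l) : bc φ v ∈ S.W K' N l := by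
  rw [mem_W] at hv ⊢
  intro f hf
  refine hv f fun h => hf ?_
  rw [bc_apply, h, map_zero]

end PatSys
end bc

/-! ### Nonnegative operators -/

section pos
variable {P : Type*}

/-- nonnegative operators -/
def OpPos (A : End ℝ (P →₀ ℝ)) : Prop := ∀ v : P →₀ ℝ, (∀ f, 0 ≤ v f) → ∀ f, 0 ≤ A v f

namespace OpPos
variable {A B A' B' : End ℝ (P →₀ ℝ)}

theorem zero : OpPos (0 : End ℝ (P →₀ ℝ)) := fun _ _ _ => le_rfl

theorem one : OpPos (1 : End ℝ (P →₀ ℝ)) := fun _ h => h

theorem add (hA : OpPos A) (hB : OpPos B) : OpPos (A + B) := fun v h f => by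
  rw [LinearMap.add_apply, Finsupp.add_apply]
  exact add_nonneg (hA v h f) (hB v h f)

theorem smul (hA : OpPos A) {a : ℝ} (ha : 0 ≤ a) : OpPos (a • A) := fun v h f => by
  rw [LinearMap.smul_apply, Finsupp.smul_apply, smul_eq_mul]
  exact mul_nonneg ha (hA v h f)

theorem mul (hA : OpPos A) (hB : OpPos B) : OpPos (A * B) := fun v h => hA _ (hB v h)

theorem sum {ι : Type*} {s : Finset ι} {F : ι → End ℝ (P →₀ ℝ)} (h : ∀ i ∈ s, OpPos (F i)) :
    OpPos (∑ i ∈ s, F i) := by
  classical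
  induction s using Finset.induction_on with
  | empty => exact zero
  | insert i s hi ih =>
    rw [Finset.sum_insert hi]
    exact (h i (Finset.mem_insert_self i s)).add
      (ih fun j hj => h j (Finset.mem_insert_of_mem hj))

theorem toV_nonneg (o : Option P) (f : P) : 0 ≤ toV ℝ o f := by
  cases o with
  | none => exact le_rfl
  | some g =>
    rw [toV_some]
    exact Finsupp.single_nonneg.2 zero_le_one f

theorem lin (m : P → Option P) : OpPos (lin ℝ m) := fun v h f => by
  rw [Rect.Alg.lin, Finsupp.linearCombination_apply, Finsupp.sum, Finsupp.finsetSum_apply]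
  refine Finset.sum_nonneg fun g _ => ?_
  rw [Finsupp.smul_apply, smul_eq_mul]
  exact mul_nonneg (h g) (toV_nonneg _ _)

theorem pow (hA : OpPos A) (n : ℕ) : OpPos (A ^ n) := by
  induction n with
  | zero => rw [pow_zero]; exact one
  | succ n ih => rw [pow_succ]; exact ih.mul hA

end OpPos

/-- `A ≤ B` entrywise -/
def Dom (A B : End ℝ (P →₀ ℝ)) : Prop := ∀ v : P →₀ ℝ, (∀ f, 0 ≤ v f) → ∀ f, A v f ≤ B v f

namespace Dom
variable {A B C A' B' : End ℝ (P →₀ ℝ)}

theorem refl (A : End ℝ (P →₀ ℝ)) : Dom A A := fun _ _ _ => le_rfl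

theorem trans (h : Dom A B) (h' : Dom B C) : Dom A C := fun v hv f => (h v hv f).trans (h' v hv f)

theorem add (h : Dom A B) (h' : Dom A' B') : Dom (A + A') (B + B') := fun v hv f => by
  rw [LinearMap.add_apply, LinearMap.add_apply, Finsupp.add_apply, Finsupp.add_apply]
  exact add_le_add (h v hv f) (h' v hv f)

theorem sum {ι : Type*} {s : Finset ι} {F G : ι → End ℝ (P →₀ ℝ)}
    (h : ∀ i ∈ s, Dom (F i) (G i)) : Dom (∑ i ∈ s, F i) (∑ i ∈ s, G i) := by
  classical
  induction s using Finset.induction_on with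
  | empty => exact refl _
  | insert i s hi ih =>
    rw [Finset.sum_insert hi, Finset.sum_insert hi]
    exact (h i (Finset.mem_insert_self i s)).add
      (ih fun j hj => h j (Finset.mem_insert_of_mem hj))

theorem smul (h : Dom A B) {a : ℝ} (ha : 0 ≤ a) : Dom (a • A) (a • B) := fun v hv f => by
  rw [LinearMap.smul_apply, LinearMap.smul_apply, Finsupp.smul_apply, Finsupp.smul_apply]
  exact mul_le_mul_of_nonneg_left (h v hv f) ha

theorem mul (h : Dom A B) (h' : Dom A' B') (hA' : OpPos A') (hB : OpPos B) :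
    Dom (A * A') (B * B') := fun v hv f => by
  rw [Module.End.mul_apply, Module.End.mul_apply]
  refine (h (A' v) (hA' v hv) f).trans ?_
  have := hB (B' v - A' v) (fun g => by
    rw [Finsupp.sub_apply, sub_nonneg]; exact h' v hv g) f
  rwa [map_sub, Finsupp.sub_apply, sub_nonneg] at this

theorem add_right (h : Dom A B) (hC : OpPos C) : Dom A (B + C) := fun v hv f => by
  rw [LinearMap.add_apply, Finsupp.add_apply]
  have := h v hv f
  have := hC v hv f
  linarith

theorem smul_le (hA : OpPos A) {a b : ℝ} (h : a ≤ b) : Dom (a • A) (b • A) := fun v hv f => by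
  rw [LinearMap.smul_apply, LinearMap.smul_apply, Finsupp.smul_apply, Finsupp.smul_apply]
  exact mul_le_mul_of_nonneg_right h (hA v hv f)

theorem of_eq (h : Dom A B) (hA : A' = A) : Dom A' B := hA ▸ h

end Dom

namespace PatSys
variable (S : PatSys P)

theorem e_pos (i : ℕ) : OpPos ((S.tower ℝ).e i) := by
  rw [tower_e_lin]; exact OpPos.lin _

theorem X_pos (i : ℕ) {p : ℝ} (h0 : 0 ≤ p) (h1 : p ≤ 1) : OpPos ((S.tower ℝ).X i p) := by
  rw [Tower.X_def]
  exact (OpPos.one.smul h0).add ((S.e_pos i).smul (sub_nonneg.2 h1))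

theorem Ah_pos {p : ℝ} (h0 : 0 ≤ p) (h1 : p ≤ 1) (n : ℕ) : ∀ k, OpPos ((S.tower ℝ).Ah n k p) := by
  induction n with
  | zero => intro k; exact OpPos.one
  | succ n ih =>
    intro k
    rw [Tower.Ah_succ]
    exact ((S.X_pos k h0 h1).mul (ih (k + 1))).mul (S.X_pos k h0 h1)

theorem Dh_pos {p : ℝ} (h0 : 0 ≤ p) (h1 : p ≤ 1) (n : ℕ) : ∀ k, OpPos ((S.tower ℝ).Dh n k p) := by
  induction n with
  | zero => intro k; exact OpPos.one
  | succ n ih =>
    intro k
    rw [Tower.Dh_succ]
    have h2 : 0 ≤ (1 - p) * (1 - p) := mul_self_nonneg _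
    have h3 : 0 ≤ 1 - (1 - p) * (1 - p) := by nlinarith
    exact ((S.Ah_pos h0 h1 n k).smul h3).add ((ih (k + 1)).smul h2)

/-! ### Lower bounds -/

theorem dom_X_one (i : ℕ) {p : ℝ} (h1 : p ≤ 1) :
    Dom (p • (1 : End ℝ (P →₀ ℝ))) ((S.tower ℝ).X i p) := by
  rw [Tower.X_def]
  exact (Dom.refl _).add_right ((S.e_pos i).smul (sub_nonneg.2 h1))

theorem dom_X_e (i : ℕ) {p : ℝ} (h0 : 0 ≤ p) :
    Dom ((1 - p) • (S.tower ℝ).e i) ((S.tower ℝ).X i p) := by
  rw [Tower.X_def, add_comm]
  exact (Dom.refl _).add_right (OpPos.one.smul h0)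

theorem dom_A_one {p : ℝ} (h0 : 0 ≤ p) (h1 : p ≤ 1) (n : ℕ) : ∀ k,
    Dom (p ^ (2 * n) • (1 : End ℝ (P →₀ ℝ))) ((S.tower ℝ).Ah n k p) := by
  induction n with
  | zero =>
    intro k
    rw [mul_zero, pow_zero, one_smul]
    exact Dom.refl _
  | succ n ih =>
    intro k
    rw [Tower.Ah_succ]
    have a1 := (S.dom_X_one k h1).mul (ih (k + 1)) (OpPos.one.smul (by positivity))
      (S.X_pos k h0 h1)
    have a2 := a1.mul (S.dom_X_one k h1) (OpPos.one.smul h0)
      ((S.X_pos k h0 h1).mul (S.Ah_pos h0 h1 n (k + 1)))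
    refine a2.of_eq ?_
    simp only [smul_mul_smul_comm, mul_one]
    congr 1
    ring

theorem dom_A_e {p : ℝ} (h0 : 0 ≤ p) (h1 : p ≤ 1) (n : ℕ) : ∀ k j, k ≤ j → j < k + n →
    Dom ((p ^ (2 * n - 1) * (1 - p)) • (S.tower ℝ).e j) ((S.tower ℝ).Ah n k p) := by
  induction n with
  | zero => intro k j h2 h3; omega
  | succ n ih =>
    intro k j h2 h3
    rw [Tower.Ah_succ]
    rcases Nat.eq_or_lt_of_le h2 with rfl | h2
    · have a1 := (S.dom_X_e k h0).mul (S.dom_A_one h0 h1 n (k + 1))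
        (OpPos.one.smul (by positivity)) (S.X_pos k h0 h1)
      have a2 := a1.mul (S.dom_X_one k h1) (OpPos.one.smul h0)
        ((S.X_pos k h0 h1).mul (S.Ah_pos h0 h1 n (k + 1)))
      refine a2.of_eq ?_
      simp only [smul_mul_smul_comm, mul_one]
      congr 1
      rw [show 2 * (n + 1) - 1 = 2 * n + 1 by omega]
      ring
    · have a1 := (S.dom_X_one k h1).mul (ih (k + 1) j h2 (by omega))
        ((S.e_pos j).smul (mul_nonneg (by positivity) (sub_nonneg.2 h1))) (S.X_pos k h0 h1)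
      have a2 := a1.mul (S.dom_X_one k h1) (OpPos.one.smul h0)
        ((S.X_pos k h0 h1).mul (S.Ah_pos h0 h1 n (k + 1)))
      refine a2.of_eq ?_
      simp only [smul_mul_smul_comm, mul_one, one_mul]
      congr 1
      obtain ⟨m, rfl⟩ : ∃ m, n = m + 1 := ⟨n - 1, by omega⟩
      rw [show 2 * (m + 1 + 1) - 1 = 2 * (m + 1) - 1 + 2 by omega]
      ring

/-- the lower bound `ε ≤ D` -/
theorem dom_D_one {p : ℝ} (h0 : 0 ≤ p) (h1 : p ≤ 1) (n k : ℕ) :
    Dom (p ^ (2 * n) • (1 : End ℝ (P →₀ ℝ))) ((S.tower ℝ).Dh n k p) := by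
  cases n with
  | zero =>
    rw [mul_zero, pow_zero, one_smul]
    exact Dom.refl _
  | succ n =>
    rw [Tower.Dh_succ]
    have h3 : 0 ≤ 1 - (1 - p) * (1 - p) := by nlinarith
    have a1 := (S.dom_A_one h0 h1 n k).smul h3
    have a2 := a1.add_right ((S.Dh_pos h0 h1 n (k + 1)).smul (mul_self_nonneg (1 - p)))
    refine Dom.trans ?_ a2
    rw [smul_smul]
    refine Dom.smul_le OpPos.one ?_
    have h4 : p ^ (2 * (n + 1)) = p ^ 2 * p ^ (2 * n) := by ring
    rw [h4]
    refine mul_le_mul_of_nonneg_right ?_ (by positivity)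
    nlinarith

/-- the lower bound `ε e_j ≤ D` -/
theorem dom_D_e {p : ℝ} (h0 : 0 ≤ p) (h1 : p ≤ 1) (n k j : ℕ) (hk : k ≤ j) (hj : j + 1 < k + n) :
    Dom ((p ^ (2 * n) * (1 - p)) • (S.tower ℝ).e j) ((S.tower ℝ).Dh n k p) := by
  obtain ⟨m, rfl⟩ : ∃ m, n = m + 1 := ⟨n - 1, by omega⟩
  rw [Tower.Dh_succ]
  have h3 : 0 ≤ 1 - (1 - p) * (1 - p) := by nlinarith
  have a1 := (S.dom_A_e h0 h1 m k j hk (by omega)).smul h3
  have a2 := a1.add_right ((S.Dh_pos h0 h1 m (k + 1)).smul (mul_self_nonneg (1 - p)))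
  refine Dom.trans ?_ a2
  rw [smul_smul]
  refine Dom.smul_le (S.e_pos j) ?_
  obtain ⟨r, rfl⟩ : ∃ r, m = r + 1 := ⟨m - 1, by omega⟩
  have e1 : 2 * (r + 1) - 1 = 2 * r + 1 := by omega
  have h4 : p ^ (2 * (r + 1 + 1)) * (1 - p) = p ^ 3 * (p ^ (2 * r + 1) * (1 - p)) := by ring
  rw [h4, e1]
  refine mul_le_mul_of_nonneg_right ?_ (mul_nonneg (by positivity) (sub_nonneg.2 h1))
  have : p ^ 3 ≤ p := by nlinarith [mul_nonneg h0 (sub_nonneg.2 h1), mul_nonneg (mul_nonneg h0 h0) (sub_nonneg.2 h1)]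
  nlinarith

end PatSys
end pos
end Rect.Alg
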