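import Pool.Agent.Rect.Alg.Lin
import Pool.Agent.Helper30.Rect.Z1

/-!
# Universal property of the link patterns

The far relations of a planar tower, the dual tower, and: for every tower `T'` with a vector `Ω'`
killed by the caps `k_i`, `i + 2 ≤ l`, there are linear maps `J N` on `W N l` which intertwine cups and
caps and send the pattern without arcs to `Ω'`.  The only property of the patterns used beyond
`PatSys` is `c i g ≠ c (i+1) g`.
-/

set_option autoImplicit false

namespace Rect.Alg
open Module Finset Pool.Agent.Helper9.DR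

section Far

variable {K : Type*} [Field K] {V : Type*} [AddCommGroup V] [Module K V] (T : Tower K V)

/-- `c_{j+2} c_i = c_i c_j` for `i ≤ j` -/
theorem cc {i j : ℕ} (h : i ≤ j) : T.c (j + 2) * T.c i = T.c i * T.c j := by
  induction j, h using Nat.le_induction with
  | base =>
    have h1 : T.e (i + 2) * (T.c i * T.c i) = T.c i * T.c i := by
      rw [← mul_assoc, T.ec le_rfl, mul_assoc, T.e_c]
    calc T.c (i + 2) * T.c i = T.e (i + 2) * (T.e (i + 1) * T.c i) * T.c i := by
          rw [T.e1c, T.e1c (i + 1)]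
      _ = T.e (i + 2) * T.e (i + 1) * (T.e (i + 2) * (T.c i * T.c i)) := by
          rw [h1]; simp only [mul_assoc]
      _ = (T.e (i + 1 + 1) * T.e (i + 1) * T.e (i + 1 + 1)) * (T.c i * T.c i) := by
          simp only [mul_assoc]
      _ = _ := by rw [T.eee', h1]
  | succ j hj ih =>
    calc T.c (j + 1 + 2) * T.c i = T.e (j + 2 + 1) * (T.c (j + 2) * T.c i) := by
          rw [← mul_assoc, T.e1c]
      _ = T.e (j + 1 + 2) * T.c i * T.c j := by rw [ih, mul_assoc]
      _ = _ := by rw [T.ec (by omega), mul_assoc, T.e1c]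

/-- `k_{j+2} c_i = c_i k_j` for `i ≤ j` -/
theorem kc_up {i j : ℕ} (h : i ≤ j) : T.k (j + 2) * T.c i = T.c i * T.k j := by
  have h1 : T.c (j + 2) * (T.k (j + 2) * T.c i) = T.c (j + 2) * (T.c i * T.k j) := by
    rw [← mul_assoc, ← mul_assoc, cc T h]
    exact T.sc i j h |>.trans (mul_assoc _ _ _).symm
  have h2 := congrArg (fun Z => T.k (j + 2) * Z) h1
  simp only [← mul_assoc, T.kc, one_mul] at h2
  exact h2

/-- `k_i c_{j+2} = c_j k_i` for `i ≤ j` -/
theorem kc_down {i j : ℕ} (h : i ≤ j) : T.k i * T.c (j + 2) = T.c j * T.k i :=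
  Pool.Agent.Helper30.Rect.kc_far T h

/-- `k_i k_{j+2} = k_j k_i` for `i ≤ j` -/
theorem kk {i j : ℕ} (h : i ≤ j) : T.k i * T.k (j + 2) = T.k j * T.k i := by
  have h1 : T.c j * (T.k i * T.k (j + 2)) = T.c j * (T.k j * T.k i) := by
    rw [← mul_assoc, ← kc_down T h, mul_assoc, T.sk i j h, mul_assoc]
  have h2 := congrArg (fun Z => T.k j * Z) h1
  simp only [← mul_assoc, T.kc, one_mul] at h2
  exact h2

/-- the dual tower: cups are transposed caps and conversely -/
def dual : Tower K (Module.Dual K V) where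
  c i := (T.k i).dualMap
  k i := (T.c i).dualMap
  kc i := by
    refine LinearMap.ext fun f => LinearMap.ext fun v => ?_
    have := LinearMap.congr_fun (T.kc i) v
    rw [Module.End.mul_apply] at this
    simp only [Module.End.mul_apply, LinearMap.dualMap_apply, this, Module.End.one_apply]
  kcr i := by
    refine LinearMap.ext fun f => LinearMap.ext fun v => ?_
    have := LinearMap.congr_fun (T.kcl i) v
    rw [Module.End.mul_apply] at this
    simp only [Module.End.mul_apply, LinearMap.dualMap_apply, this, Module.End.one_apply]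
  kcl i := by
    refine LinearMap.ext fun f => LinearMap.ext fun v => ?_
    have := LinearMap.congr_fun (T.kcr i) v
    rw [Module.End.mul_apply] at this
    simp only [Module.End.mul_apply, LinearMap.dualMap_apply, this, Module.End.one_apply]
  sc i j h := by
    refine LinearMap.ext fun f => LinearMap.ext fun v => ?_
    have := LinearMap.congr_fun (T.sk i j h) v
    simp only [Module.End.mul_apply] at this
    simp only [Module.End.mul_apply, LinearMap.dualMap_apply, this]
  sk i j h := by
    refine LinearMap.ext fun f => LinearMap.ext fun v => ?_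
    have := LinearMap.congr_fun (T.sc i j h) v
    simp only [Module.End.mul_apply] at this
    simp only [Module.End.mul_apply, LinearMap.dualMap_apply, this]

theorem dual_c (i : ℕ) (f : Module.Dual K V) (v : V) : (dual T).c i f v = f (T.k i v) := rfl

theorem dual_k (i : ℕ) (f : Module.Dual K V) (v : V) : (dual T).k i f v = f (T.c i v) := rfl

end Far

namespace PatSys

variable {P : Type*} (S : PatSys P)

section P

theorem toV_inj {K : Type*} [Field K] {o o' : Option P} (h : toV K o = toV K o') : o = o' := by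
  cases o with
  | none =>
    cases o' with
    | none => rfl
    | some g =>
      rw [toV_none, toV_some] at h
      exact absurd h.symm (Finsupp.single_ne_zero.2 one_ne_zero)
  | some f =>
    cases o' with
    | none =>
      rw [toV_none, toV_some] at h
      exact absurd h (Finsupp.single_ne_zero.2 one_ne_zero)
    | some g =>
      rw [toV_some, toV_some] at h
      rw [Finsupp.single_left_injective one_ne_zero h]

theorem p_cc {i j : ℕ} (h : i ≤ j) (f : P) : S.c (j + 2) (S.c i f) = S.c i (S.c j f) := by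
  have h1 := LinearMap.congr_fun (cc (S.tower ℚ) h) (Finsupp.single f 1)
  simp only [Module.End.mul_apply, tower_c] at h1
  exact Finsupp.single_left_injective one_ne_zero h1

theorem p_kc_up {i j : ℕ} (h : i ≤ j) (f : P) : S.k (j + 2) (S.c i f) = (S.k j f).map (S.c i) := by
  have h1 := LinearMap.congr_fun (kc_up (S.tower ℚ) h) (Finsupp.single f 1)
  simp only [Module.End.mul_apply, tower_c, tower_k, one_smul] at h1
  refine toV_inj (K := ℚ) (h1.trans ?_)
  cases S.k j f with
  | none => simp
  | some g => simp [tower_c]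

theorem p_kc_down {i j : ℕ} (h : i ≤ j) (f : P) :
    S.k i (S.c (j + 2) f) = (S.k i f).map (S.c j) := by
  have h1 := LinearMap.congr_fun (kc_down (S.tower ℚ) h) (Finsupp.single f 1)
  simp only [Module.End.mul_apply, tower_c, tower_k, one_smul] at h1
  refine toV_inj (K := ℚ) (h1.trans ?_)
  cases S.k i f with
  | none => simp
  | some g => simp [tower_c]

theorem c_inj {i : ℕ} {f g : P} (h : S.c i f = S.c i g) : f = g := by
  have h1 := S.kc i f
  rw [h, S.kc] at h1
  exact (Option.some.inj h1).symm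

/-- the pattern without arcs is not a cup insertion -/
theorem Om_ne {l i : ℕ} (hi : i + 2 ≤ l) (g : P) : S.Om l ≠ S.c i g := by
  intro h
  have h1 := S.kOm l i hi
  rw [h, S.kc] at h1
  exact Option.some_ne_none _ h1

end P

section Rel

variable {K : Type*} [Field K] {V' : Type*} [AddCommGroup V'] [Module K V']
  (T' : Tower K V') (l : ℕ) (Ω' : V')

/-- `Rel N f w`: `w` is a value of the intertwiner on the pattern `f` -/
inductive Rel : ℕ → P → V' → Prop
  | base : Rel l (S.Om l) Ω'
  | step (M i : ℕ) (g : P) (w : V') : i ≤ M → g ∈ S.PN M l → Rel M g w →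
      Rel (M + 2) (S.c i g) (T'.c i w)

theorem Rel.mem {N : ℕ} {f : P} {w : V'} (h : S.Rel T' l Ω' N f w) : f ∈ S.PN N l := by
  cases h with
  | base => exact S.Om_mem l
  | step M i g w hi hg _ => exact S.PNc M l i g hg hi

theorem Rel.inv {N : ℕ} {f : P} {w : V'} (h : S.Rel T' l Ω' N f w) :
    (N = l ∧ f = S.Om l ∧ w = Ω') ∨ ∃ M i g w1, N = M + 2 ∧ i ≤ M ∧ g ∈ S.PN M l ∧
      S.Rel T' l Ω' M g w1 ∧ f = S.c i g ∧ w = T'.c i w1 := by
  cases h with
  | base => exact Or.inl ⟨rfl, rfl, rfl⟩
  | step M i g w hi hg h => exact Or.inr ⟨M, i, g, w, rfl, hi, hg, h, rfl, rfl⟩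

theorem Rel.total : ∀ (N : ℕ) (f : P), f ∈ S.PN N l → ∃ w, S.Rel T' l Ω' N f w := by
  intro N
  induction N using Nat.strong_induction_on with
  | _ N ih =>
    intro f hf
    rcases S.PNind N l f hf with ⟨rfl, rfl⟩ | ⟨M, g, i, rfl, hi, hg, rfl⟩
    · exact ⟨Ω', Rel.base⟩
    · obtain ⟨w, hw⟩ := ih M (by omega) g hg
      exact ⟨_, Rel.step M i g w hi hg hw⟩

variable (hU : ∀ i g, S.c i g ≠ S.c (i + 1) g)
include hU

/-- two different small arcs -/
theorem two_arcs {M i j : ℕ} {g g' : P} (hij : i < j) (hj : j ≤ M) (hg : g ∈ S.PN M l)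
    (h : S.c i g = S.c j g') : ∃ m M' h', j = m + 2 ∧ M = M' + 2 ∧ i ≤ m ∧ m ≤ M' ∧
      h' ∈ S.PN M' l ∧ g = S.c m h' ∧ g' = S.c i h' := by
  have hne : j ≠ i + 1 := by
    rintro rfl
    have h1 := S.kc i g
    rw [h, S.kcr] at h1
    rw [Option.some.inj h1] at h
    exact hU i g h
  obtain ⟨m, rfl⟩ : ∃ m, j = m + 2 := ⟨j - 2, by omega⟩
  obtain ⟨M', rfl⟩ : ∃ M', M = M' + 2 := ⟨M - 2, by omega⟩
  have him : i ≤ m := by omega
  have h1 := S.sc i m g him
  rw [h, S.kc, Option.map_some] at h1
  cases hk : S.k m g with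
  | none => rw [hk] at h1; simp at h1
  | some h' =>
    rw [hk, Option.map_some] at h1
    have h2 := Option.some.inj h1
    refine ⟨m, M', h', rfl, rfl, him, by omega, S.PNk M' l m g h' hg (by omega) hk, ?_, ?_⟩
    · rw [← h] at h2
      exact S.c_inj h2
    · rw [← S.p_cc him] at h2
      exact S.c_inj h2

theorem Rel.unique : ∀ (N : ℕ) {f : P} {w w' : V'}, S.Rel T' l Ω' N f w → S.Rel T' l Ω' N f w' →
    w = w' := by
  intro N
  induction N using Nat.strong_induction_on with
  | _ N ih =>
    have key : ∀ {M i j : ℕ} {g g' : P} {w1 w2 : V'}, N = M + 2 → i < j → j ≤ M → g ∈ S.PN M l →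
        S.Rel T' l Ω' M g w1 → S.Rel T' l Ω' M g' w2 → S.c i g = S.c j g' →
        T'.c i w1 = T'.c j w2 := by
      intro M i j g g' w1 w2 hN hij hj hg h1 h2 h
      obtain ⟨m, M', h', rfl, rfl, him, hm, hh', rfl, rfl⟩ := S.two_arcs l hU hij hj hg h
      obtain ⟨w3, h3⟩ := Rel.total S T' l Ω' M' h' hh'
      have e1 := ih (M' + 2) (by omega) h1 (Rel.step M' m h' w3 hm hh' h3)
      have e2 := ih (M' + 2) (by omega) h2 (Rel.step M' i h' w3 (by omega) hh' h3)
      rw [e1, e2]
      have := LinearMap.congr_fun (cc T' him) w3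
      simp only [Module.End.mul_apply] at this
      exact this.symm
    intro f w w' h h'
    rcases h.inv with ⟨h1, h2, h3⟩ | ⟨M, i, g, w1, h1, h2, h3, h4, h5, h6⟩
    · rcases h'.inv with ⟨h1', h2', h3'⟩ | ⟨M, i, g, w1, h1', h2', h3', h4', h5', h6'⟩
      · rw [h3, h3']
      · exact absurd (h2.symm.trans h5') (S.Om_ne (by omega) g)
    · rcases h'.inv with ⟨h1', h2', h3'⟩ | ⟨M', i', g', w1', h1', h2', h3', h4', h5', h6'⟩
      · exact absurd (h2'.symm.trans h5) (S.Om_ne (by omega) g)
      · obtain rfl : M = M' := by omega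
        rcases lt_trichotomy i i' with hlt | rfl | hlt
        · rw [h6, h6']
          exact key h1 hlt h2' h3 h4 h4' (h5.symm.trans h5')
        · obtain rfl := S.c_inj (h5.symm.trans h5')
          rw [h6, h6', ih M (by omega) h4 h4']
        · rw [h6, h6']
          exact (key h1 hlt h2 h3' h4' h4 (h5'.symm.trans h5)).symm

end Rel

section J

variable {K : Type*} [Field K] {V' : Type*} [AddCommGroup V'] [Module K V']
  (T' : Tower K V') (l : ℕ) (Ω' : V')

open Classical in
/-- the value on a pattern -/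
noncomputable def Jp (N : ℕ) (f : P) : V' :=
  if h : ∃ w, S.Rel T' l Ω' N f w then h.choose else 0

/-- the intertwiner -/
noncomputable def J (N : ℕ) : (P →₀ K) →ₗ[K] V' := Finsupp.linearCombination K (S.Jp T' l Ω' N)

theorem J_single (N : ℕ) (f : P) (a : K) :
    S.J T' l Ω' N (Finsupp.single f a) = a • S.Jp T' l Ω' N f := by
  rw [J, Finsupp.linearCombination_single]

variable (hU : ∀ i g, S.c i g ≠ S.c (i + 1) g)
include hU

theorem Jp_eq {N : ℕ} {f : P} {w : V'} (h : S.Rel T' l Ω' N f w) : S.Jp T' l Ω' N f = w := by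
  have h0 : ∃ w, S.Rel T' l Ω' N f w := ⟨w, h⟩
  rw [Jp, dif_pos h0]
  exact Rel.unique S T' l Ω' hU N h0.choose_spec h

theorem Jp_Om : S.Jp T' l Ω' l (S.Om l) = Ω' := S.Jp_eq T' l Ω' hU Rel.base

theorem Jp_c {N i : ℕ} {f : P} (hf : f ∈ S.PN N l) (hi : i ≤ N) :
    S.Jp T' l Ω' (N + 2) (S.c i f) = T'.c i (S.Jp T' l Ω' N f) := by
  obtain ⟨w, hw⟩ := Rel.total S T' l Ω' N f hf
  rw [S.Jp_eq T' l Ω' hU hw]
  exact S.Jp_eq T' l Ω' hU (Rel.step N i f w hi hf hw)

theorem J_Om : S.J T' l Ω' l (Finsupp.single (S.Om l) 1) = Ω' := by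
  rw [J_single, one_smul, S.Jp_Om T' l Ω' hU]

/-- cups are intertwined -/
theorem J_c {N i : ℕ} (hi : i ≤ N) {v : P →₀ K} (hv : v ∈ S.W K N l) :
    S.J T' l Ω' (N + 2) ((S.tower K).c i v) = T'.c i (S.J T' l Ω' N v) := by
  rw [W_eq_span] at hv
  induction hv using Submodule.span_induction with
  | mem x hx =>
    obtain ⟨f, hf, rfl⟩ := hx
    dsimp only
    rw [tower_c, J_single, J_single, one_smul, one_smul]
    exact S.Jp_c T' l Ω' hU hf hi
  | zero => simp only [map_zero]
  | add x y _ _ hx hy => simp only [map_add, hx, hy]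
  | smul a x _ hx => simp only [map_smul, hx]

variable (hΩ : ∀ i, i + 2 ≤ l → T'.k i Ω' = 0)
include hΩ

theorem Jp_k : ∀ (N : ℕ) {f : P} {i : ℕ}, f ∈ S.PN (N + 2) l → i ≤ N →
    S.J T' l Ω' N (toV K (S.k i f)) = T'.k i (S.Jp T' l Ω' (N + 2) f) := by
  intro N
  induction N using Nat.strong_induction_on with
  | _ N ih =>
    intro f i hf hi
    rcases S.PNind (N + 2) l f hf with ⟨rfl, rfl⟩ | ⟨M, g, j, hM, hj, hg, rfl⟩
    · rw [S.kOm _ i (by omega), toV_none, map_zero, S.Jp_Om T' _ Ω' hU, hΩ i (by omega)]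
    · obtain rfl : M = N := by omega
      rw [S.Jp_c T' l Ω' hU hg hj]
      have tk : ∀ Z Z' : End K V', Z = Z' → ∀ w, Z w = Z' w := fun Z Z' h w => by rw [h]
      rcases lt_trichotomy i j with hlt | rfl | hlt
      · rcases Nat.lt_or_ge (i + 1) j with h2 | h2
        · -- `i + 2 ≤ j`
          obtain ⟨m, rfl⟩ : ∃ m, j = m + 2 := ⟨j - 2, by omega⟩
          obtain ⟨M', rfl⟩ : ∃ M', M = M' + 2 := ⟨M - 2, by omega⟩
          rw [S.p_kc_down (by omega : i ≤ m)]
          have e1 := tk _ _ (kc_down T' (by omega : i ≤ m)) (S.Jp T' l Ω' (M' + 2) g)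
          simp only [Module.End.mul_apply] at e1
          rw [e1, ← ih M' (by omega) hg (by omega)]
          have e2 : toV K ((S.k i g).map (S.c m)) = (S.tower K).c m (toV K (S.k i g)) := by
            cases S.k i g with
            | none => simp
            | some h => simp [tower_c]
          rw [e2]
          exact S.J_c T' l Ω' hU (by omega)
            (S.toV_mem_W K fun h hh => S.PNk M' l i g h hg (by omega) hh)
        · obtain rfl : j = i + 1 := by omega
          rw [S.kcr, toV_some, J_single, one_smul]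
          have e1 := tk _ _ (T'.kcr i) (S.Jp T' l Ω' M g)
          simp only [Module.End.mul_apply, Module.End.one_apply] at e1
          rw [e1]
      · rw [S.kc, toV_some, J_single, one_smul]
        have e1 := tk _ _ (T'.kc i) (S.Jp T' l Ω' M g)
        simp only [Module.End.mul_apply, Module.End.one_apply] at e1
        rw [e1]
      · rcases Nat.lt_or_ge (j + 1) i with h2 | h2
        · obtain ⟨m, rfl⟩ : ∃ m, i = m + 2 := ⟨i - 2, by omega⟩
          obtain ⟨M', rfl⟩ : ∃ M', M = M' + 2 := ⟨M - 2, by omega⟩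
          rw [S.p_kc_up (by omega : j ≤ m)]
          have e1 := tk _ _ (kc_up T' (by omega : j ≤ m)) (S.Jp T' l Ω' (M' + 2) g)
          simp only [Module.End.mul_apply] at e1
          rw [e1, ← ih M' (by omega) hg (by omega)]
          have e2 : toV K ((S.k m g).map (S.c j)) = (S.tower K).c j (toV K (S.k m g)) := by
            cases S.k m g with
            | none => simp
            | some h => simp [tower_c]
          rw [e2]
          exact S.J_c T' l Ω' hU (by omega)
            (S.toV_mem_W K fun h hh => S.PNk M' l m g h hg (by omega) hh)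
        · obtain rfl : i = j + 1 := by omega
          rw [S.kcl, toV_some, J_single, one_smul]
          have e1 := tk _ _ (T'.kcl j) (S.Jp T' l Ω' M g)
          simp only [Module.End.mul_apply, Module.End.one_apply] at e1
          rw [e1]

/-- caps are intertwined -/
theorem J_k {N i : ℕ} (hi : i ≤ N) {v : P →₀ K} (hv : v ∈ S.W K (N + 2) l) :
    S.J T' l Ω' N ((S.tower K).k i v) = T'.k i (S.J T' l Ω' (N + 2) v) := by
  rw [W_eq_span] at hv
  induction hv using Submodule.span_induction with
  | mem x hx =>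
    obtain ⟨f, hf, rfl⟩ := hx
    dsimp only
    rw [tower_k, one_smul, J_single, one_smul]
    exact S.Jp_k T' l Ω' hU hΩ N hf hi
  | zero => simp only [map_zero]
  | add x y _ _ hx hy => simp only [map_add, hx, hy]
  | smul a x _ hx => simp only [map_smul, hx]

end J

end PatSys
end Rect.Alg
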